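import Pool.Agent.XE31.AD.Stm

/-!
# Project AD (helper31), piece EXT (helper33)
-/

set_option autoImplicit false
set_option linter.all false

namespace Pool.Agent.XE31.AD

theorem EXT.exists_hom (K N M : Type) [Field K] [Field N] [Field M] [IsAlgClosed M] [Algebra K N]
    [Algebra K M] (w : ℕ → M) (hw : AlgebraicIndependent K w) (ι : Type) [Finite ι] (η : ι → N)
    (hη : IsTranscendenceBasis K η) : Nonempty (N →ₐ[K] M) := by
  obtain ⟨n, ⟨e⟩⟩ := Finite.exists_equiv_fin ι
  have hg : Function.Injective (fun i : ι => ((e i : Fin n) : ℕ)) := fun a b hab =>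
    e.injective (Fin.ext hab)
  have hw' := hw.comp _ hg
  let θ : Algebra.adjoin K (Set.range η) →ₐ[K] M :=
    ((Algebra.adjoin K (Set.range (w ∘ fun i : ι => ((e i : Fin n) : ℕ)))).val.comp
      hw'.aevalEquiv.toAlgHom).comp hη.1.aevalEquiv.symm.toAlgHom
  have hθ : Function.Injective θ := by
    intro a b hab
    have h1 := Subtype.val_injective hab
    exact hη.1.aevalEquiv.symm.injective (hw'.aevalEquiv.injective h1)
  letI : Algebra (Algebra.adjoin K (Set.range η)) M := θ.toRingHom.toAlgebra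
  haveI : IsScalarTower K (Algebra.adjoin K (Set.range η)) M := by
    refine IsScalarTower.of_algebraMap_eq fun x => ?_
    exact (θ.commutes x).symm
  haveI : FaithfulSMul (Algebra.adjoin K (Set.range η)) M :=
    (faithfulSMul_iff_algebraMap_injective _ _).2 hθ
  haveI : Algebra.IsAlgebraic (Algebra.adjoin K (Set.range η)) N := hη.isAlgebraic
  exact ⟨(IsAlgClosed.lift : N →ₐ[Algebra.adjoin K (Set.range η)] M).restrictScalars K⟩

theorem EXT.extend (K N M : Type) [Field K] [Field N] [Field M] [IsAlgClosed M] [Algebra K N]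
    [Algebra K M] (f : N →ₐ[K] M) (σ : N ≃ₐ[K] N) :
    ∃ σ' : M ≃ₐ[K] M, ∀ x, σ' (f x) = f (σ x) := by
  letI : Algebra N M := f.toRingHom.toAlgebra
  obtain ⟨κ, ξ, hξ⟩ := exists_isTranscendenceBasis' N M
  haveI := IsAlgClosed.isAlgClosure_of_transcendence_basis ξ hξ
  let e : Algebra.adjoin N (Set.range ξ) ≃+* Algebra.adjoin N (Set.range ξ) :=
    (hξ.1.aevalEquiv.symm.toRingEquiv.trans
      (MvPolynomial.mapEquiv κ (σ : N ≃+* N))).trans hξ.1.aevalEquiv.toRingEquiv
  have he : ∀ y : N, e (algebraMap N (Algebra.adjoin N (Set.range ξ)) y) =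
      algebraMap N (Algebra.adjoin N (Set.range ξ)) (σ y) := by
    intro y
    change hξ.1.aevalEquiv (MvPolynomial.mapEquiv κ (σ : N ≃+* N)
      (hξ.1.aevalEquiv.symm (algebraMap N (Algebra.adjoin N (Set.range ξ)) y))) = _
    rw [AlgEquiv.commutes, MvPolynomial.algebraMap_eq]
    have h1 : MvPolynomial.mapEquiv κ (σ : N ≃+* N) (MvPolynomial.C y) =
        MvPolynomial.C (σ y) := MvPolynomial.map_C _ _
    rw [h1, ← MvPolynomial.algebraMap_eq, AlgEquiv.commutes]
  let τ : M ≃+* M := IsAlgClosure.equivOfEquiv M M e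
  have hτ : ∀ y : N, τ (f y) = f (σ y) := by
    intro y
    have h1 := IsAlgClosure.equivOfEquiv_algebraMap M M e
      (algebraMap N (Algebra.adjoin N (Set.range ξ)) y)
    rw [he] at h1
    exact h1
  refine ⟨AlgEquiv.ofRingEquiv (f := τ) fun c => ?_, hτ⟩
  rw [← f.commutes c, hτ, σ.commutes]

theorem t_EXT : S_EXT := by
  intro K _
  refine ⟨AlgebraicClosure (FractionRing (MvPolynomial ℕ K)), inferInstance, inferInstance,
    inferInstance, ?_⟩
  intro N _ _ _ ι _ η hη
  have hw : AlgebraicIndependent K (fun i : ℕ => algebraMap (MvPolynomial ℕ K)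
      (AlgebraicClosure (FractionRing (MvPolynomial ℕ K))) (MvPolynomial.X i)) := by
    have h1 := MvPolynomial.algebraicIndependent_X ℕ K
    refine h1.map' (f := IsScalarTower.toAlgHom K (MvPolynomial ℕ K)
      (AlgebraicClosure (FractionRing (MvPolynomial ℕ K)))) ?_
    have h2 : Function.Injective (algebraMap (MvPolynomial ℕ K)
        (AlgebraicClosure (FractionRing (MvPolynomial ℕ K)))) := by
      rw [IsScalarTower.algebraMap_eq (MvPolynomial ℕ K) (FractionRing (MvPolynomial ℕ K))
        (AlgebraicClosure (FractionRing (MvPolynomial ℕ K)))]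
      exact (algebraMap (FractionRing (MvPolynomial ℕ K)) _).injective.comp
        (IsFractionRing.injective (MvPolynomial ℕ K) (FractionRing (MvPolynomial ℕ K)))
    exact h2
  obtain ⟨f⟩ := EXT.exists_hom K N _ _ hw ι η hη
  exact ⟨f, fun σ => EXT.extend K N _ f σ⟩

end Pool.Agent.XE31.AD
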