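import Mathlib

/-!
Project AD (all large degrees), problem MP_7f581e_nt, owner helper31. Statements (NOT results) of
the pieces.

The starting library proves that `G ≀ A_n` (`G` finite perfect) occurs over `F_p(X)` for the
numbers `n = q + 6 r p + 1`, `q` a prime `≡ -1` modulo `12 r p`. The project proves it for ALL
sufficiently large `n` in a residue class: the number of parameters is a positive proportion of `n`,
so the group is highly transitive, and MTC1, MTC2 replace the theorem of Jordan on primes.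
-/

set_option autoImplicit false

namespace Pool.Agent.XE31.AD

/-- `H` is transitive on the injective `k`-tuples. -/
def Tr {n : ℕ} (k : ℕ) (H : Subgroup (Equiv.Perm (Fin n))) : Prop :=
  ∀ a b : Fin k → Fin n, Function.Injective a → Function.Injective b → ∃ h ∈ H, ∀ i, h (a i) = b i

/-- MTC1: an element `x ≠ 1` with small support gives a three-cycle.

Proof. Let `S = x.support`, `m = |S| ≥ 2`, `s₀ ∈ S`. As `2 m ≤ n`, there is an injective map
`f : S → Fin n` with `f s₀ = s₀` and `f s ∉ S` for the other `s`. By transitivity (extend the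
enumeration of `S`, which has `m ≤ k` elements, to injective `k`-tuples `a`, `b` with
`b i = f (a i)` for `i < m`; first extend `a` and `b` arbitrarily, possible as `k ≤ n`) there is
`y ∈ H` with `y s = f s` on `S`. `z = y x y⁻¹ ∈ H` has support `y S = f S` and
`S ∩ f S = {s₀}`. The commutator `x z x⁻¹ z⁻¹` is a three-cycle: with `u = x s₀ ∈ S \ {s₀}`,
`v = z s₀ ∈ f S \ {s₀}` it maps `v ↦ s₀ ↦ u`... more precisely: `z⁻¹ v = s₀`, `x⁻¹ s₀ = w ∈ S`,
`w ≠ s₀`, so `z w = w`, `x w = s₀`: `v ↦ s₀`. `z⁻¹ s₀ ∈ f S \ {s₀}` is fixed by `x⁻¹`, then `z`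
gives `s₀`, `x s₀ = u`: `s₀ ↦ u`. `u`: `z⁻¹ u = u`, `x⁻¹ u = s₀`, `z s₀ = v`, `x v = v`: `u ↦ v`. All
other points `w` are fixed: if `w ∉ S ∪ f S` clear; if `w ∈ S`, `w ≠ s₀, u`: `z⁻¹ w = w`,
`x⁻¹ w ∈ S \ {s₀}` is fixed by `z`, so `w ↦ w`; if `w ∈ f S`, `w ≠ s₀, v`: `z⁻¹ w ∈ f S \ {s₀}` is
fixed by `x⁻¹`, so `w ↦ w`. Use `Equiv.Perm.isThreeCycle_swap_mul_swap_same` or
`card_support_eq_three_iff`. -/
def S_MTC1 : Prop :=
  ∀ (n k : ℕ) (H : Subgroup (Equiv.Perm (Fin n))), k ≤ n → Tr k H → ∀ x ∈ H, x ≠ 1 →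
    x.support.card ≤ k → 2 * x.support.card ≤ n → ∃ h ∈ H, h.IsThreeCycle

/-- MTC2: a highly transitive group has an element `≠ 1` with small support.

Proof. Put `j = 2 c + 4`. For large `n` there are primes `q_1 < ... < q_j` with `n < q_i ^ 3` and
`c ∑ q_i ≤ n`, so `∑ q_i ≤ k` (let `a` be minimal with `n < a ^ 3`, so `(a - 1) ^ 3 ≤ n`; by
Bertrand's postulate, `Nat.exists_prime_lt_and_le_two_mul`, there are primes `q_1` in `(a, 2 a]`,
`q_2` in `(q_1, 2 q_1]`, ...; so `q_i ≤ 2 ^ i a` and `c ∑ q_i ≤ c j 2 ^ j a ≤ (a - 1) ^ 3 ≤ n` for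
large `a`). By transitivity there is `x ∈ H` which acts on `∑ q_i ≤ k` points as a product of
disjoint cycles of lengths `q_1, ..., q_j` (take a permutation `c₀` of `Fin n` with these cycles,
e.g. from `Equiv.Perm` on `Σ i, Fin (q_i)` (`finRotate`) by `extendDomain`/`viaEmbedding`, and ask
for `x = c₀` on those points). Let `N = orderOf x = q_i ^ {a_i} M_i`, `q_i ∤ M_i`, `x_i = x ^ {M_i}`.
`x_i ≠ 1`, because `x` has a cycle of length `q_i` (`q_i ∤ M_i`). If `ω` is moved by `x_i` then
`q_i` divides the length `ℓ(ω)` of the cycle of `ω` (otherwise `ℓ(ω) ∣ M_i`, use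
`(x.cycleOf ω)` or the minimal period `Function.minimalPeriod x ω ∣ N`). As `ℓ(ω) ≤ n < q_i ^ 3`, at
most two of the `q_i` divide `ℓ(ω)` (the product of three would exceed `n`). So
`∑ i, |supp x_i| ≤ 2 n` and for some `i`: `|supp x_i| ≤ 2 n / j ≤ n / (c + 2) ≤ k` and `≤ n / 2`. -/
def S_MTC2 : Prop :=
  ∀ c : ℕ, ∃ n₀ : ℕ, ∀ n ≥ n₀, ∀ k : ℕ, n ≤ c * k → k ≤ n →
    ∀ H : Subgroup (Equiv.Perm (Fin n)), Tr k H →
    ∃ x ∈ H, x ≠ 1 ∧ x.support.card ≤ k ∧ 2 * x.support.card ≤ n

/-- EXT: a field in which all algebraically closed fields of finite transcendence degree over `K`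
embed, such that automorphisms extend.

Proof. `N' = AlgebraicClosure (FractionRing (MvPolynomial ℕ K))` with the transcendence basis
`w : ℕ → N'` (the variables). Let `η : ι → N` be a transcendence basis, `ι ≃ Fin k`. Put
`F = IntermediateField.adjoin K (w '' {i < k})`, `M = algebraicClosure F N'` (as intermediate field
of `N' / K`, algebraically closed). `w` on `{i < k}` is a transcendence basis of `M` over `K`, so there
is `e : N ≃ₐ[K] M` (`IsAlgClosed.equivOfTranscendenceBasis` and its companion for `≃ₐ`, or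
`IsAlgClosure.equiv` of the algebraic closures of the isomorphic fields `K(η)` and `F`), and
`f` is `e` followed by the inclusion. Given `σ`, let `τ = e σ e⁻¹ : M ≃ₐ[K] M`. The elements `w i`,
`i ≥ k`, are algebraically independent over `M` (over `F`: `AlgebraicIndependent.sumElim_iff`,
`IntermediateField.algebraicIndependent_adjoin_iff`; `M / F` is algebraic), and `N'` is algebraic
over `E = M(w i, i ≥ k)`. `τ` extends to an automorphism of `E` fixing the `w i` (rational functions
with coefficients in `M`), and then to the algebraic closure `N'` of `E`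
(`IsAlgClosure.equivOfEquiv`). Alternatively: `N'` is an `M`-algebra in two ways, by the inclusion
and by the inclusion composed with `τ`; the family `w i`, `i ≥ k`, is a transcendence basis for both, and
`IsAlgClosed.equivOfTranscendenceBasis` gives `σ'`. -/
def S_EXT : Prop :=
  ∀ (K : Type) [Field K], ∃ (N' : Type) (_ : Field N') (_ : IsAlgClosed N') (_ : Algebra K N'),
    ∀ (N : Type) [Field N] [IsAlgClosed N] [Algebra K N] (ι : Type) [Finite ι] (η : ι → N),
      IsTranscendenceBasis K η → ∃ f : N →ₐ[K] N', ∀ σ : N ≃ₐ[K] N,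
        ∃ σ' : N' ≃ₐ[K] N', ∀ x, σ' (f x) = f (σ x)

end Pool.Agent.XE31.AD
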