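import Mathlib
import Pool.Agent.XE31.C2.Par5
import Pool.Agent.XE31.C2.Fin

/-!
Project AD: the parity theorem for the second construction, with a bound for `B` which does not
depend on the parameters.
-/

set_option autoImplicit false
set_option linter.unusedSectionVars false

namespace Pool.Agent.XE31.C2

open Polynomial Pool.Agent.Y140.AW

/-- Parity, second construction, uniform in the parameters. -/
def St_par3u : Prop :=
  ∀ (K N : Type) [Field K] [CharP K 2] [Field N] [IsAlgClosed N] [Algebra K N] (Θ : K[X][X])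
    (D₀ : K[X]) (d : ℕ), DD Θ D₀ d →
    ∃ B₁ : ℕ, ∀ (m : ℕ) (ν : Fin m → N) (s : N), s ≠ 0 → ∀ B ≥ B₁, m ≤ B →
      ∀ x θ : Fin (d * g3 D₀ B) → N,
      Function.Injective x → (∀ l, IsPt3 Θ (D₀ ^ 4 * X) B ν s (x l) (θ l)) →
      ∀ (a : Fin (g3 D₀ B) → N) (b : Fin (g3 D₀ B) → Fin d → N), Function.Injective a →
      (∀ i, Function.Injective (b i)) → (∀ i, (G3 (D₀ ^ 4 * X) B ν).eval (a i) = 0) →
      (∀ i j, (tA Θ (a i)).eval (b i j) = 0) →
      ∀ σ : N ≃ₐ[K] N, σ s = s → (∀ i, σ (ν i) = ν i) →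
      ∀ π : Equiv.Perm (Fin (d * g3 D₀ B)), (∀ l, σ (x l) = x (π l)) →
      ∀ (τ : Equiv.Perm (Fin (g3 D₀ B))) (ω : Fin (g3 D₀ B) → Equiv.Perm (Fin d)) (u : ℤˣ),
        (∀ i, σ (a i) = a (τ i)) → (∀ i j, σ (b i j) = b (τ i) (ω i j)) →
        (∀ i, Equiv.Perm.sign (ω i) = u) → Equiv.Perm.sign π = u

theorem par3u_of (h : Pcs) : St_par3u := by
  classical
  intro K N _ _ _ _ _ Θ D₀ d hDD
  have hcN : CharP N 2 := charP_of_injective_algebraMap (algebraMap K N).injective 2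
  obtain ⟨W, iW, r, τ, hW⟩ := h.wit N
  have hdom := hW.dom
  obtain ⟨f0, hf0⟩ : ∃ f0, f0 = D₀.map (algebraMap K N) := ⟨_, rfl⟩
  have hf0ne : f0 ≠ 0 := by
    rw [hf0]
    exact (Polynomial.map_ne_zero_iff (algebraMap K N).injective).2 hDD.ne
  have hf0d : f0.natDegree = D₀.natDegree := by rw [hf0, natDegree_map]
  obtain ⟨a, ha⟩ : ∃ a : ℕ → W[X], a = fun k => lp τ ((Θ.coeff k).map (algebraMap K N)) :=
    ⟨_, rfl⟩
  have har : ∀ k, (a k).map r = (Θ.coeff k).map (algebraMap K N) := by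
    intro k
    rw [ha]
    exact lp_map hW _
  have had : a d = 1 := by
    have h1 : Θ.coeff d = 1 := by
      rw [← hDD.deg]
      exact hDD.monic
    rw [ha]
    change lp τ ((Θ.coeff d).map (algebraMap K N)) = 1
    rw [h1, Polynomial.map_one, lp_one hW]
  have hadeg : ∀ k, (a k).natDegree = (Θ.coeff k).natDegree := by
    intro k
    rw [ha]
    change (lp τ ((Θ.coeff k).map (algebraMap K N))).natDegree = _
    rw [lp_natDegree hW, natDegree_map]
  obtain ⟨hΞm, hΞd⟩ := XI_monic d a had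
  obtain ⟨D₁, hD₁⟩ : ∃ D₁, resultant (XI d a) (derivative (XI d a)) d (d - 1) = D₁ := ⟨_, rfl⟩
  have hD₁r : D₁.map r = f0 ^ 8 := by
    rw [← hD₁, hf0]
    exact res_red hDD a har
  obtain ⟨u, hu⟩ := ker2 hW D₁ (lp τ f0 ^ 8) (by rw [hD₁r, Polynomial.map_pow, lp_map hW])
  obtain ⟨D, hD⟩ : ∃ D : W[X], D = lp τ f0 ^ 4 * X := ⟨_, rfl⟩
  have hDr : D.map r = (D₀ ^ 4 * X).map (algebraMap K N) := by
    rw [hD, Polynomial.map_mul, Polynomial.map_pow, lp_map hW, hf0, Polynomial.map_mul,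
      Polynomial.map_pow, map_X, map_X]
  obtain ⟨E₁, hE₁⟩ : ∃ E₁ : W[X],
      E₁ = (D₁ ^ 3 - 8 * D₁ ^ 2 * u + 24 * D₁ * u ^ 2 - 32 * u ^ 3) * X ^ 8 := ⟨_, rfl⟩
  have hE : D ^ 8 = D₁ * E₁ + 8 * (2 * u ^ 4 * X ^ 8) := by
    have h1 : lp τ f0 ^ 8 = D₁ - 2 * u := by rw [hu]; ring
    have h2 : D ^ 8 = (lp τ f0 ^ 8) ^ 4 * X ^ 8 := by rw [hD]; ring
    rw [h2, h1, hE₁]
    ring
  obtain ⟨g₀, hg₀⟩ := meq h.eig h.nons h.nonz h.syle h.sylc (XI d a) d hDD.pos hΞm hΞd D₁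
    (D ^ 8) E₁ (2 * u ^ 4 * X ^ 8) hD₁ hE
  obtain ⟨L, hL⟩ : ∃ L : ℕ, ∀ k, (Θ.coeff k).natDegree ≤ L := by
    refine ⟨(Finset.range (Θ.natDegree + 1)).sup fun k => (Θ.coeff k).natDegree, fun k => ?_⟩
    by_cases hk : k ≤ Θ.natDegree
    · exact Finset.le_sup (f := fun k => (Θ.coeff k).natDegree)
        (Finset.mem_range.2 (Nat.lt_succ_of_le hk))
    · rw [coeff_eq_zero_of_natDegree_lt (by omega), natDegree_zero]
      exact Nat.zero_le _
  have hDdeg : (D₀ ^ 4 * X).natDegree = 4 * f0.natDegree + 1 := by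
    rw [natDegree_mul (pow_ne_zero _ hDD.ne) X_ne_zero, natDegree_pow, hf0d, natDegree_X]
  suffices key : ∀ (m : ℕ) (ν : Fin m → N) (s : N), s ≠ 0 → ∀ B ≥ g₀ + L + 1, m ≤ B →
      ∀ g, g = 8 * (B + (4 * f0.natDegree + 1)) + 1 → ∀ x θ : Fin (d * g) → N,
      Function.Injective x → (∀ l, IsPt3 Θ (D₀ ^ 4 * X) B ν s (x l) (θ l)) →
      ∀ (a₀ : Fin g → N) (b₀ : Fin g → Fin d → N), Function.Injective a₀ →
      (∀ i, Function.Injective (b₀ i)) → (∀ i, (G3 (D₀ ^ 4 * X) B ν).eval (a₀ i) = 0) →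
      (∀ i j, (tA Θ (a₀ i)).eval (b₀ i j) = 0) →
      ∀ σ : N ≃ₐ[K] N, σ s = s → (∀ i, σ (ν i) = ν i) →
      ∀ π : Equiv.Perm (Fin (d * g)), (∀ l, σ (x l) = x (π l)) →
      ∀ (τ : Equiv.Perm (Fin g)) (ω : Fin g → Equiv.Perm (Fin d)) (u : ℤˣ),
        (∀ i, σ (a₀ i) = a₀ (τ i)) → (∀ i j, σ (b₀ i j) = b₀ (τ i) (ω i j)) →
        (∀ i, Equiv.Perm.sign (ω i) = u) → Equiv.Perm.sign π = u from
    ⟨g₀ + L + 1, fun m ν s hs B hB hmB =>
      key m ν s hs B hB hmB (g3 D₀ B) (by unfold g3; rw [hDdeg])⟩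
  intro m ν s hs B hB hmB g hg x θ hx hpt a₀ b₀ ha₀ hb₀ hGa₀ hab₀ σ hσs hσν π hσx τ' ω uu hσa hσb huu
  -- the polynomial `G`
  obtain ⟨hGd, hGl, hDd⟩ := G3W_deg hW f0 hf0ne B m (fun i => τ (ν i)) (by
    have hWd : (∑ i : Fin m, C (τ (ν i)) * X ^ (8 * (i : ℕ)) : W[X]).natDegree ≤ 8 * B := by
      refine natDegree_sum_le_of_forall_le _ _ fun i _ => ?_
      refine (natDegree_C_mul_X_pow_le _ _).trans (Nat.mul_le_mul_left 8 ?_)
      have := i.2
      omega
    omega)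
  rw [← hg] at hGd
  rw [← hD] at hGd hGl hDd
  obtain ⟨G, hG⟩ : ∃ G : W[X], G = G3W D B (fun i => τ (ν i)) := ⟨_, rfl⟩
  rw [← hG] at hGd hGl
  have hGr : G.map r = G3 (D₀ ^ 4 * X) B ν := by
    rw [hG, G3W_map, hDr]
    unfold G3
    congr 1
    funext i
    exact hW.sec _
  have hlc : f0.leadingCoeff ≠ 0 := leadingCoeff_ne_zero.2 hf0ne
  have hGl0 : r G.leadingCoeff ≠ 0 := by
    rw [hGl, map_pow, hW.sec]
    exact pow_ne_zero _ hlc
  -- the polynomial `P`
  obtain ⟨P, hP⟩ : ∃ P : W[X], P = PW d a (D ^ 8) G (τ s) := ⟨_, rfl⟩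
  obtain ⟨hPd, hPl⟩ := PW_deg d a (D ^ 8) G (τ s) g (8 * (4 * f0.natDegree + 1)) had hGd (by
    rw [natDegree_pow, hDd]) (fun k => by
    rw [hadeg]
    have := hL k
    omega)
  rw [← hP] at hPd hPl
  have hPl0 : r P.leadingCoeff ≠ 0 := by
    rw [hPl, map_pow]
    exact pow_ne_zero _ hGl0
  have hPr : P.map r = PW d (fun k => (Θ.coeff k).map (algebraMap K N))
      (((D₀ ^ 4 * X).map (algebraMap K N)) ^ 8) (G3 (D₀ ^ 4 * X) B ν) s := by
    rw [hP, PW_map, Polynomial.map_pow, hDr, hGr, hW.sec]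
    congr 1
    funext k
    exact har k
  have hPx : ∀ l, (P.map r).eval (x l) = 0 := by
    intro l
    obtain ⟨h1, -, h3⟩ := hpt l
    have h4 := (h.eta N d (fun k => (Θ.coeff k).map (algebraMap K N))
      (((D₀ ^ 4 * X).map (algebraMap K N)) ^ 8) (G3 (D₀ ^ 4 * X) B ν) s (x l) (θ l ^ 8)
      hDD.pos (by
        rw [h3, eval_pow, eval_map_algebraMap]
        ring)).1
    rw [hPr, h4, ev2_XI Θ hDD.deg, h1]
    ring
  obtain ⟨x', hx'r, hPx'⟩ := h.root N W r τ hW P (d * g) hPd hPl0 x hx hPx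
  have hx'inj : Function.Injective x' := by
    intro l j hlj
    apply hx
    rw [← hx'r, ← hx'r, hlj]
  have hP0 : ∀ l, P.eval (x' l) = 0 := by
    intro l
    rw [hPx']
    exact eval_prod_self _ _ _
  -- the values of `E`
  have hEl : ∀ l, IsUnit (τ s * (D ^ 8).eval (x' l)) := by
    intro l
    apply hW.unit
    rw [map_mul, hW.sec, ← evr, hx'r, Polynomial.map_pow, hDr, eval_pow, eval_map_algebraMap]
    exact mul_ne_zero hs (pow_ne_zero _ (hpt l).2.1)
  choose w hw using fun l => (hEl l).exists_right_inv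
  obtain ⟨η, hη⟩ : ∃ η : Fin (d * g) → W, ∀ l,
      G.eval (x' l) = τ s * (D ^ 8).eval (x' l) * η l := by
    refine ⟨fun l => w l * G.eval (x' l), fun l => ?_⟩
    rw [← mul_assoc, hw, one_mul]
  have heta := fun l => h.eta W d a (D ^ 8) G (τ s) (x' l) (η l) hDD.pos (hη l)
  have hΞ0 : ∀ l, ev2 (XI d a) (x' l) (η l) = 0 := by
    intro l
    have h1 := (heta l).1
    rw [← hP, hP0] at h1
    exact (mul_eq_zero.1 h1.symm).resolve_left (pow_ne_zero _ (hEl l).ne_zero)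
  -- the points over `s = 0`
  obtain ⟨a', ha'r, hGa'⟩ := h.root N W r τ hW G g hGd hGl0 a₀ ha₀ (fun i => by
    rw [hGr]
    exact hGa₀ i)
  have ha'inj : Function.Injective a' := by
    intro i j hij
    apply ha₀
    rw [← ha'r, ← ha'r, hij]
  have hGa0 : ∀ i, G.eval (a' i) = 0 := by
    intro i
    rw [hGa']
    exact eval_prod_self _ _ _
  have hpow8 : ∀ y z : N, y ^ 8 = z ^ 8 → y = z := by
    intro y z hyz
    have h1 : iterateFrobenius N 2 3 y = iterateFrobenius N 2 3 z := by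
      rw [iterateFrobenius_def, iterateFrobenius_def]
      exact hyz
    exact (iterateFrobenius N 2 3).injective h1
  have hXIr : (XI d a).map (mapRingHom r) =
      XI d (fun k => (Θ.coeff k).map (algebraMap K N)) := by
    rw [XI_map]
    congr 1
    funext k
    exact har k
  have hroot2 : ∀ i, ∃ b' : Fin d → W, (∀ j, r (b' j) = b₀ i j ^ 8) ∧
      (XI d a).map (evalRingHom (a' i)) = C 1 * ∏ j, (X - C (b' j)) := by
    intro i
    have hmon : ((XI d a).map (evalRingHom (a' i))).Monic := hΞm.map _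
    have hnd : ((XI d a).map (evalRingHom (a' i))).natDegree = d := by
      rw [hΞm.natDegree_map, hΞd]
    obtain ⟨b', hb'r, hb'⟩ := h.root N W r τ hW _ d hnd (by
      rw [hmon.leadingCoeff, map_one]
      exact one_ne_zero) (fun j => b₀ i j ^ 8) (fun j k hjk => hb₀ i (hpow8 _ _ hjk)) (fun j => by
      have h1 : ((XI d a).map (evalRingHom (a' i))).map r =
          (XI d (fun k => (Θ.coeff k).map (algebraMap K N))).map (evalRingHom (a₀ i)) := by
        rw [← hXIr, Polynomial.map_map, Polynomial.map_map]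
        congr 1
        refine RingHom.ext fun f => ?_
        change r (f.eval (a' i)) = (f.map r).eval (a₀ i)
        rw [← ha'r i, evr]
      rw [h1]
      change ev2 _ (a₀ i) (b₀ i j ^ 8) = 0
      rw [ev2_XI Θ hDD.deg, hab₀, zero_pow (by norm_num)])
    rw [hmon.leadingCoeff] at hb'
    exact ⟨b', hb'r, hb'⟩
  choose b' hb'r hb' using hroot2
  have hb'inj : ∀ i, Function.Injective (b' i) := by
    intro i j k hjk
    apply hb₀ i
    apply hpow8
    rw [← hb'r, ← hb'r, hjk]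
  have hab' : ∀ i j, ev2 (XI d a) (a' i) (b' i j) = 0 := by
    intro i j
    unfold ev2
    rw [hb']
    exact eval_prod_self _ _ _
  have hder' : ∀ i j, ev2 (derivative (XI d a)) (a' i) (b' i j) =
      ∏ k ∈ Finset.univ.erase j, (b' i j - b' i k) := by
    intro i j
    unfold ev2
    rw [← derivative_map, hb', eval_der_prod, one_mul]
  -- the comparison modulo 8
  obtain ⟨μ, hμ⟩ := (hW.unit _ hGl0).exists_left_inv
  have hμ0 : μ ≠ 0 := by
    rintro rfl
    rw [zero_mul] at hμ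
    exact zero_ne_one hμ
  have hmon : (C μ * G).Monic := by
    rw [Monic, leadingCoeff_mul, leadingCoeff_C, hμ]
  have hmond : (C μ * G).natDegree = g := by
    rw [natDegree_C_mul hμ0, hGd]
  let e : Fin (g * d) ≃ Fin (d * g) := finCongr (mul_comm _ _)
  obtain ⟨t, ht⟩ := hg₀ g (by omega) (C μ * G) hmon hmond (μ * τ s) (fun l => x' (e l))
    (fun l => η (e l)) (hx'inj.comp e.injective) (fun l => hΞ0 _) (fun l => by
      rw [eval_mul, eval_C, hη]
      ring) a' b' ha'inj hb'inj (fun i => by rw [eval_mul, hGa0, mul_zero]) hab'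
  have hMe : ∏ l, ev2 (derivative (XI d a)) (x' (e l)) (η (e l)) =
      ∏ l, ev2 (derivative (XI d a)) (x' l) (η l) :=
    Equiv.prod_comp e (fun l => ev2 (derivative (XI d a)) (x' l) (η l))
  rw [hMe] at ht
  simp only [hder'] at ht
  -- the derivative
  obtain ⟨Q₁, hQ₁⟩ := der_G3W D B (fun i => τ (ν i))
  rw [← hG] at hQ₁
  obtain ⟨Q, hQ⟩ := der3 d a (X ^ B * D) D G Q₁ (τ s) hQ₁
  rw [← hP] at hQ
  -- the automorphism
  obtain ⟨σ', hσ'r, hσ'τ⟩ := hW.aut (σ : N ≃+* N)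
  have hfixK : ∀ (f : K[X]) (k : ℕ), (σ : N ≃+* N) ((f.map (algebraMap K N)).coeff k) =
      (f.map (algebraMap K N)).coeff k := by
    intro f k
    rw [coeff_map]
    exact σ.commutes _
  have hafix : ∀ k, (a k).map (σ' : W →+* W) = a k := by
    intro k
    rw [ha]
    exact lp_fix hW (σ : N ≃+* N) σ' hσ'τ _ (hfixK _)
  have hDfix : D.map (σ' : W →+* W) = D := by
    rw [hD, Polynomial.map_mul, Polynomial.map_pow, map_X,
      lp_fix hW (σ : N ≃+* N) σ' hσ'τ f0 (by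
        rw [hf0]
        exact hfixK D₀)]
  have hsfix : σ' (τ s) = τ s := by
    rw [hσ'τ]
    change τ (σ s) = _
    rw [hσs]
  have hGfix : G.map (σ' : W →+* W) = G := by
    rw [hG, G3W_map, hDfix]
    congr 1
    funext i
    change σ' (τ (ν i)) = _
    rw [hσ'τ]
    change τ (σ (ν i)) = _
    rw [hσν]
  have hPfix : P.map (σ' : W →+* W) = P := by
    rw [hP, PW_map, Polynomial.map_pow, hDfix, hGfix]
    have h1 : (fun k => (a k).map (σ' : W →+* W)) = a := funext hafix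
    have h2 : (σ' : W →+* W) (τ s) = τ s := hsfix
    rw [h1, h2]
  have hΞfix : (XI d a).map (mapRingHom (σ' : W →+* W)) = XI d a := by
    rw [XI_map]
    congr 1
    exact funext hafix
  have hσx' : ∀ l, σ' (x' l) = x' (π l) := by
    intro l
    have h1 : P.eval (σ' (x' l)) = 0 := by
      have h2 := evr (σ' : W →+* W) P (x' l)
      rw [hPfix, hP0, map_zero] at h2
      exact h2
    rw [hPx'] at h1
    obtain ⟨j, hj⟩ := exists_of_eval_prod _ (fun h0 => hPl0 (by rw [h0, map_zero])) x' _ h1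
    have h3 : x j = x (π l) := by
      rw [← hx'r j, ← hj, hσ'r, hx'r]
      exact hσx l
    rw [hj, hx h3]
  have hσa' : ∀ i, σ' (a' i) = a' (τ' i) := by
    intro i
    have h1 : G.eval (σ' (a' i)) = 0 := by
      have h2 := evr (σ' : W →+* W) G (a' i)
      rw [hGfix, hGa0, map_zero] at h2
      exact h2
    rw [hGa'] at h1
    obtain ⟨j, hj⟩ := exists_of_eval_prod _ (fun h0 => hGl0 (by rw [h0, map_zero])) a' _ h1
    have h3 : a₀ j = a₀ (τ' i) := by
      rw [← ha'r j, ← hj, hσ'r, ha'r]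
      exact hσa i
    rw [hj, ha₀ h3]
  have hσb' : ∀ i j, σ' (b' i j) = b' (τ' i) (ω i j) := by
    intro i j
    have h1 : ev2 (XI d a) (a' (τ' i)) (σ' (b' i j)) = 0 := by
      have h2 := ev2_map (σ' : W →+* W) (XI d a) (a' i) (b' i j)
      rw [hΞfix, hab', map_zero] at h2
      rw [← hσa' i]
      exact h2
    unfold ev2 at h1
    rw [hb'] at h1
    obtain ⟨k, hk⟩ := exists_of_eval_prod _ one_ne_zero (b' (τ' i)) _ h1
    have h3 : b₀ (τ' i) k = b₀ (τ' i) (ω i j) := by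
      apply hpow8
      rw [← hb'r, ← hk, hσ'r, hb'r, map_pow]
      congr 1
      exact hσb i j
    rw [hk, hb₀ _ h3]
  have hevσ : ∀ (f : W[X]) (l : Fin (d * g)), f.map (σ' : W →+* W) = f →
      σ' (f.eval (x' l)) = f.eval (x' (π l)) := by
    intro f l hf
    have h2 := evr (σ' : W →+* W) f (x' l)
    rw [hf] at h2
    rw [← hσx' l]
    exact h2.symm
  have hlcfix : σ' (τ f0.leadingCoeff) = τ f0.leadingCoeff := by
    rw [hσ'τ]
    congr 1
    exact (by rw [hf0]; exact hfixK D₀ _)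
  refine fin_comp3 h.sq hW d g (B + (4 * f0.natDegree + 1)) hDD.pos hg x' ?_
    (fun l => (D ^ 8).eval (x' l)) (fun l => (UW d a (D ^ 8) G (τ s)).eval (x' l))
    (fun l => ev2 (derivative (XI d a)) (x' l) (η l)) (fun l => Q.eval (x' l))
    (fun l => (X ^ B : W[X]).eval (x' l)) (fun l => D.eval (x' l)) (τ s)
    ((τ f0.leadingCoeff) ^ (16 * d)) (fun l => eval_pow _) (fun l => (heta l).2)
    (fun l => ?_) ?_ b' t ht σ' π hσx' (fun l => hevσ D l hDfix)
    (fun l => hevσ (X ^ B) l (by rw [Polynomial.map_pow, map_X])) hsfix ?_ τ' ω uu hσb' huu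
  · intro l j hlj
    apply hx
    rw [← hx'r, ← hx'r]
    exact hlj
  · have h1 : ((τ f0.leadingCoeff) ^ (16 * d)) ^ 2 = P.leadingCoeff := by
      rw [hPl, hGl]
      ring
    rw [h1, ← eval_der_prod, ← hPx', hQ]
    simp only [eval_add, eval_mul, eval_pow, eval_ofNat]
    ring
  · rw [map_pow, hW.sec]
    exact pow_ne_zero _ hlc
  · rw [map_pow, hlcfix]

theorem t_par3u : St_par3u := par3u_of pcs

end Pool.Agent.XE31.C2
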