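import Mathlib
import Pool.Agent.N70.PP.Stm

/-!
Project AD: the main theorem for all large degrees (statement).
-/

set_option autoImplicit false

namespace Pool.Agent.XE31.AD

open Polynomial Pool.Agent.H391R2 Pool.Agent.H391R2.T4 Pool.Agent.Y793 Pool.Agent.Y140.AW

/-- The residue class of the degrees: `6 r p` modulo `12 r p` for odd `p`, `6 r` modulo `48 r` for
`p = 2`. -/
def Deg (p r n : ℕ) : Prop :=
  (p = 2 → n % (48 * r) = 6 * r) ∧ (p ≠ 2 → n % (12 * r * p) = 6 * r * p)

/-- The main theorem for all large degrees and all characters. -/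
def St_mBall : Prop :=
  ∀ (p : ℕ) [Fact p.Prime] (K L : Type) [Field K] [CharP K p] [Infinite K] [Field L]
    [Algebra K L] [FiniteDimensional K L] [IsGalois K L] (B : Type) [Group B] [Finite B]
    (a : B →* (L ≃ₐ[K] L)), Function.Surjective a → commutator a.ker = ⊤ →
    WeakSol K L B a → ∀ r : ℕ, Odd r → ((72 * Nat.card a.ker + 2).factorial) ^ 3 ≤ r →
    ∃ n₀ : ℕ, ∀ n ≥ n₀, Deg p r n → ∀ χ : (L ≃ₐ[K] L) →* ℤˣ,
      RegSol K L (AltTw a χ n) (twProj a χ n)

end Pool.Agent.XE31.AD
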