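import Mathlib
import Pool.Agent.N70.PP.Fin
import Pool.Agent.H43W.Pts
import Pool.Agent.XE31.AD.Core
import Pool.Agent.XE31.AD.Par2u
import Pool.Agent.XE31.AD.Par3u
import Pool.Agent.XE31.AD.Voc
import Pool.Agent.XE31.C2.Main3

/-!
Project AD: the main theorems for all large degrees.
-/

set_option autoImplicit false
set_option linter.unusedSectionVars false
set_option linter.unusedSimpArgs false

namespace Pool.Agent.XE31.AD

open Polynomial Pool.Agent.H391R2 Pool.Agent.H391R2.T4 Pool.Agent.Y793 Pool.Agent.Y140.AW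
open Pool.Agent.N70.EP (SgnIndex)
open Pool.Agent.N70.PP
open Pool.Agent.XE31.C2

/-- Highly transitive groups contain a three-cycle. -/
def St_mt3 : Prop :=
  ∀ c : ℕ, ∃ n₀ : ℕ, ∀ n ≥ n₀, ∀ k : ℕ, n ≤ c * k → k ≤ n →
    ∀ H : Subgroup (Equiv.Perm (Fin n)), Tr k H → ∃ h ∈ H, h.IsThreeCycle

theorem mt3_of (h1 : S_MTC1) (h2 : S_MTC2) : St_mt3 := by
  intro c
  obtain ⟨n₀, hn₀⟩ := h2 c
  refine ⟨n₀, fun n hn k hk hkn H hH => ?_⟩
  obtain ⟨x, hx, hx1, hx2, hx3⟩ := hn₀ n hn k hk hkn H hH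
  exact h1 n k H hkn hH x hx hx1 hx2 hx3

/-- Parity, first construction, uniform in the field `N`. -/
theorem parT1 (hEXT : S_EXT) (K : Type) [Field K] [CharP K 2] (Θ : K[X][X]) (D₀ : K[X]) (d : ℕ)
    (hDD : DD Θ D₀ d) :
    ∃ B₁ : ℕ, ∀ (N : Type) [Field N] [IsAlgClosed N] [Algebra K N] (ι : Type) [Finite ι]
      (η : ι → N), IsTranscendenceBasis K η → ∀ (m : ℕ) (ν : Fin m → N) (s : N), s ≠ 0 →
      ∀ B ≥ B₁ + 16 * m,
      ∀ x θ : Fin (d * (8 * (B + (D₀ ^ 4).natDegree))) → N,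
      Function.Injective x → (∀ l, IsPt Θ (D₀ ^ 4) 8 B ν s (x l) (θ l)) →
      ∀ σ : N ≃ₐ[K] N, σ s = s → (∀ i, σ (ν i) = ν i) →
      ∀ π : Equiv.Perm (Fin (d * (8 * (B + (D₀ ^ 4).natDegree)))), (∀ l, σ (x l) = x (π l)) →
        Equiv.Perm.sign π = 1 := by
  obtain ⟨N', i1, i2, i3, hN'⟩ := hEXT K
  obtain ⟨B₁, hB₁⟩ := t_par2u K N' Θ D₀ d hDD
  refine ⟨B₁, fun N _ _ _ ι _ η hη m ν s hs B hB x θ hx hpt σ hσs hσν π hσx => ?_⟩
  obtain ⟨f, hf⟩ := hN' N ι η hη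
  obtain ⟨σ', hσ'⟩ := hf σ
  have hfi : Function.Injective f := (f : N →+* N').injective
  refine hB₁ m (fun i => f (ν i)) (f s) ((map_ne_zero_iff _ hfi).2 hs) B hB (fun l => f (x l))
    (fun l => f (θ l)) (fun i j h => hx (hfi h)) (fun l => (hpt l).map f) σ' ?_ (fun i => ?_) π
    (fun l => ?_)
  · rw [hσ', hσs]
  · rw [hσ', hσν]
  · rw [hσ', hσx]

/-- Parity, second construction, uniform in the field `N`. -/
theorem parT2 (hEXT : S_EXT) (K : Type) [Field K] [CharP K 2] (Θ : K[X][X]) (D₀ : K[X]) (d : ℕ)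
    (hDD : DD Θ D₀ d) :
    ∃ B₁ : ℕ, ∀ (N : Type) [Field N] [IsAlgClosed N] [Algebra K N] (ι : Type) [Finite ι]
      (η : ι → N), IsTranscendenceBasis K η → ∀ (m : ℕ) (ν : Fin m → N) (s : N), s ≠ 0 →
      ∀ B ≥ B₁, m ≤ B →
      ∀ x θ : Fin (d * g3 D₀ B) → N,
      Function.Injective x → (∀ l, IsPt3 Θ (D₀ ^ 4 * X) B ν s (x l) (θ l)) →
      ∀ (a : Fin (g3 D₀ B) → N) (b : Fin (g3 D₀ B) → Fin d → N), Function.Injective a →
      (∀ i, Function.Injective (b i)) → (∀ i, (G3 (D₀ ^ 4 * X) B ν).eval (a i) = 0) →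
      (∀ i j, (tA Θ (a i)).eval (b i j) = 0) →
      ∀ σ : N ≃ₐ[K] N, σ s = s → (∀ i, σ (ν i) = ν i) →
      ∀ π : Equiv.Perm (Fin (d * g3 D₀ B)), (∀ l, σ (x l) = x (π l)) →
      ∀ (τ : Equiv.Perm (Fin (g3 D₀ B))) (ω : Fin (g3 D₀ B) → Equiv.Perm (Fin d)) (u : ℤˣ),
        (∀ i, σ (a i) = a (τ i)) → (∀ i j, σ (b i j) = b (τ i) (ω i j)) →
        (∀ i, Equiv.Perm.sign (ω i) = u) → Equiv.Perm.sign π = u := by
  obtain ⟨N', i1, i2, i3, hN'⟩ := hEXT K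
  obtain ⟨B₁, hB₁⟩ := t_par3u K N' Θ D₀ d hDD
  refine ⟨B₁, fun N _ _ _ ι _ η hη m ν s hs B hB hmB x θ hx hpt a b ha hb hGa hab σ hσs hσν π hσx
    τ ω u hσa hσb hu => ?_⟩
  obtain ⟨f, hf⟩ := hN' N ι η hη
  obtain ⟨σ', hσ'⟩ := hf σ
  have hfi : Function.Injective f := (f : N →+* N').injective
  refine hB₁ m (fun i => f (ν i)) (f s) ((map_ne_zero_iff _ hfi).2 hs) B hB hmB
    (fun l => f (x l)) (fun l => f (θ l)) (fun i j h => hx (hfi h)) (fun l => (hpt l).map f)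
    (fun i => f (a i)) (fun i j => f (b i j)) (fun i j h => ha (hfi h))
    (fun i j k h => hb i (hfi h)) (fun i => ?_) (fun i j => ?_) σ' ?_ (fun i => ?_) π
    (fun l => ?_) τ ω u (fun i => ?_) (fun i j => ?_) hu
  · rw [G3_map, eval_map]
    have h1 : eval₂ (f : N →+* N') (f (a i)) (G3 (D₀ ^ 4 * X) B ν) =
        f ((G3 (D₀ ^ 4 * X) B ν).eval (a i)) := eval₂_at_apply (f : N →+* N') (a i)
    rw [h1, hGa, map_zero]
  · rw [tA_map, eval_map]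
    have h1 : eval₂ (f : N →+* N') (f (b i j)) (tA Θ (a i)) = f ((tA Θ (a i)).eval (b i j)) :=
      eval₂_at_apply (f : N →+* N') (b i j)
    rw [h1, hab, map_zero]
  · rw [hσ', hσs]
  · rw [hσ', hσν]
  · rw [hσ', hσx]
  · rw [hσ', hσa]
  · rw [hσ', hσb]

section odd

variable (p : ℕ) [Fact p.Prime] (hp2 : p ≠ 2) (hh : Pieces) (hMT3 : St_mt3)
    {K L Z : Type} [Field K] [CharP K p] [Infinite K] [Field L] [Algebra K L]
    [FiniteDimensional K L] [IsGalois K L] [Field Z] [Algebra (RatFunc K) Z] [Algebra L Z]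
    [Algebra K Z] [IsScalarTower K (RatFunc K) Z] [IsScalarTower K L Z]
    [FiniteDimensional (RatFunc K) Z] [IsGalois (RatFunc K) Z]
    (π : (Z ≃ₐ[RatFunc K] Z) →* (L ≃ₐ[K] L))
    (hπ : ∀ (σ : Z ≃ₐ[RatFunc K] Z) (x : L), σ (algebraMap L Z x) = algebraMap L Z (π σ x))
    (hreg : ∀ y : Z, IsAlgebraic L y → y ∈ Set.range (algebraMap L Z))
    (P : Subgroup (Z ≃ₐ[RatFunc K] Z)) {B : Type} [Group B] [Finite B] (β : P →* B)
    (hβ : Function.Surjective β) (a : B →* (L ≃ₐ[K] L)) (hsurj : Function.Surjective a)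
    (ha : ∀ p : P, a (β p) = π p) (hperf : commutator a.ker = ⊤)

include hp2 hh hMT3 hπ hreg hβ hsurj ha hperf

theorem oneAodd : ∃ n₀ : ℕ, ∀ n ≥ n₀, 4 * P.index * p ∣ n →
    RegSol K L (AltTw a 1 n) (twProj a 1 n) := by
  classical
  obtain ⟨θ, Θ, D₀, hθ, hΘ, hDD⟩ := hh.data K Z P
  obtain ⟨d, hd⟩ : ∃ d, d = P.index := ⟨_, rfl⟩
  rw [← hd] at hDD ⊢
  have hp0 : 0 < p := (Fact.out : p.Prime).pos
  have hd0 := hDD.pos
  obtain ⟨M, hM⟩ : ∃ M, M = 4 * d * p := ⟨_, rfl⟩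
  rw [← hM]
  have hMp : 0 < M := by rw [hM]; positivity
  obtain ⟨L', hL⟩ := exists_L Θ
  obtain ⟨T, hT⟩ : ∃ T, T = D₀.natDegree + L' + 8 := ⟨_, rfl⟩
  obtain ⟨n₁, hn₁⟩ := hMT3 M
  have hM4 : 4 ≤ M := by
    rw [hM, mul_assoc]
    nlinarith [Nat.mul_pos hd0 hp0]
  refine ⟨n₁ + M * T + M * D₀.natDegree + 2 * (Nat.card a.ker) ^ 2 + 3, fun n hn0 hn => ?_⟩
  obtain ⟨j, hj⟩ := hn
  have hjT : T + D₀.natDegree ≤ j := by
    by_contra h
    have h1 : M * j ≤ M * (T + D₀.natDegree) := Nat.mul_le_mul_left M (by omega)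
    rw [mul_add] at h1
    omega
  obtain ⟨r, hr⟩ : ∃ r, r = j := ⟨_, rfl⟩
  obtain ⟨Bd, hB⟩ : ∃ Bd, Bd = 4 * (j - D₀.natDegree) := ⟨_, rfl⟩
  have hBδ : Bd + (D₀ ^ 4).natDegree = 4 * j := by
    rw [natDegree_pow, hB]
    omega
  have hnd : d * (p * (Bd + (D₀ ^ 4).natDegree)) = n := by
    rw [hBδ, hj, hM]
    ring
  have hn4 : 4 ∣ d * (p * (Bd + (D₀ ^ 4).natDegree)) := by
    rw [hBδ]
    exact ⟨d * p * j, by ring⟩
  have hjn : 4 * j ≤ n := by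
    rw [hj]
    exact Nat.mul_le_mul_right j hM4
  have hBB : BB Θ Bd (r + 1) := ⟨by omega, by omega, fun k => by have := hL k; omega⟩
  have hBe : Even Bd := by
    rw [hB]
    exact ⟨2 * (j - D₀.natDegree), by ring⟩
  let K₀ := AlgebraicClosure K
  let jL : L →ₐ[K] K₀ := IsAlgClosed.lift
  let iL : Algebra L K₀ := jL.toRingHom.toAlgebra
  have tKL : IsScalarTower K L K₀ := .of_algebraMap_eq fun x => (jL.commutes x).symm
  obtain ⟨N, i1, i2, i3, η, hη⟩ := exists_trb K₀ (Option (Fin (r + 1)))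
  let i4 : Algebra K N := ((algebraMap K₀ N).comp (algebraMap K K₀)).toAlgebra
  let i4L : Algebra L N := ((algebraMap K₀ N).comp (algebraMap L K₀)).toAlgebra
  have i5 : IsScalarTower K K₀ N := .of_algebraMap_eq fun _ => rfl
  have i5L : IsScalarTower L K₀ N := .of_algebraMap_eq fun _ => rfl
  have i6 : IsScalarTower K L N := .of_algebraMap_eq fun x => by
    rw [IsScalarTower.algebraMap_apply K K₀ N, IsScalarTower.algebraMap_apply K L K₀,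
      ← IsScalarTower.algebraMap_apply L K₀ N]
  obtain ⟨s, hs⟩ : ∃ s : N, s = η none := ⟨_, rfl⟩
  obtain ⟨ν, hν⟩ : ∃ ν : Fin (r + 1) → N, ν = fun i => η (some i) := ⟨_, rfl⟩
  have hη' : (fun o : Option (Fin (r + 1)) => o.elim s ν) = η := by
    funext o
    cases o with
    | none => exact hs
    | some i => rw [hν]; rfl
  rw [← hη'] at hη
  have hs0 : s ≠ 0 := hη.1.ne_zero none
  obtain ⟨x, θx, hx, hpt, hall, hder⟩ := hh.pts p K N Θ D₀ (D₀ ^ 4) d Bd (r + 1) hDD hBB rfl ν s hs0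
  rw [← hnd]
  refine coreTQ (K₀ := K₀) (N := N) p 1 p (pow_one p).symm hh.tup hh.lift hh.ari π hπ hreg P θ Θ
      hθ hΘ D₀ d hDD β hβ a hsurj ha hperf Bd r _ (by omega) (by rw [hnd]; omega)
      (fun H hH => hn₁ _ (by rw [hnd]; omega) (r + 1) (by
        rw [hnd, hj, hr]
        exact Nat.mul_le_mul_left M (by omega)) (by rw [hnd]; omega) H hH)
      (lt_of_lt_of_le (by omega) (Nat.self_le_factorial _)) s ν hη x θx hx hpt hall 1 ?_
  intro σ h τ hσs hσν _ hperm hτ _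
  exact sgnA hp2 hh.int hh.pl hh.uni hh.par hDD hBB hBe hn4 hη x θx hx hpt hder hperm σ τ hσs hτ

theorem oneBodd (d : ℕ) (hd2 : d % 4 = 2) (χ : (L ≃ₐ[K] L) →* ℤˣ)
    (hidx : SgnIndex (Z ≃ₐ[RatFunc K] Z) P d (χ.comp π)) :
    ∃ n₀ : ℕ, ∀ n ≥ n₀, n % (2 * (d * p)) = d * p →
      RegSol K L (AltTw a χ n) (twProj a χ n) := by
  classical
  obtain ⟨θ, Θ, D₀, hθ, hΘ, hDD⟩ := hh.data K Z P
  rw [index_of_sgnIndex hidx] at hDD
  obtain ⟨ρ, δ, hρ0, hδ, hρ⟩ := exists_rho K L χ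
  obtain ⟨R, hR⟩ := hh.lcB K L Z π hπ P d χ hd2 hidx ρ δ hρ0 hδ hρ θ Θ D₀ hθ hΘ hDD
  have hp0 : 0 < p := (Fact.out : p.Prime).pos
  have hpo : Odd p := (Fact.out : p.Prime).odd_of_ne_two hp2
  have hd0 := hDD.pos
  obtain ⟨c, hc⟩ : ∃ c, c = d * p := ⟨_, rfl⟩
  have hc0 : 0 < c := by rw [hc]; positivity
  rw [← hc]
  obtain ⟨L', hL⟩ := exists_L Θ
  obtain ⟨T, hT⟩ : ∃ T, T = 8 * D₀.natDegree + L' + 16 := ⟨_, rfl⟩
  obtain ⟨n₁, hn₁⟩ := hMT3 (2 * c)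
  refine ⟨n₁ + 2 * c * T + 2 * (Nat.card a.ker) ^ 2 + 3, fun n hn0 hnc => ?_⟩
  obtain ⟨j, hj⟩ : ∃ j, n = c * (2 * j + 1) := by
    refine ⟨n / (2 * c), ?_⟩
    have h1 := Nat.div_add_mod n (2 * c)
    rw [hnc] at h1
    calc n = 2 * c * (n / (2 * c)) + c := h1.symm
      _ = c * (2 * (n / (2 * c)) + 1) := by ring
  have hjT : T < 2 * j + 1 := by
    by_contra h
    have h1 : c * (2 * j + 1) ≤ c * T := Nat.mul_le_mul_left c (by omega)
    have h2 : c * T ≤ 2 * c * T := by nlinarith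
    omega
  have hjn : 2 * j + 1 ≤ n := by
    rw [hj]
    nlinarith
  obtain ⟨r, hr⟩ : ∃ r, r = j := ⟨_, rfl⟩
  obtain ⟨Bd, hB⟩ : ∃ Bd, Bd = 2 * j + 1 - 4 * D₀.natDegree := ⟨_, rfl⟩
  have hBδ : Bd + (D₀ ^ 4).natDegree = 2 * j + 1 := by
    rw [natDegree_pow, hB]
    omega
  have hnd : d * (p * (Bd + (D₀ ^ 4).natDegree)) = n := by
    rw [hBδ, hj, hc]
    ring
  have hn2 : d * (p * (Bd + (D₀ ^ 4).natDegree)) % 4 = 2 := by
    rw [hBδ]
    obtain ⟨p', hp'⟩ := hpo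
    obtain ⟨d', hd'⟩ : ∃ d', d = 4 * d' + 2 := ⟨d / 4, by omega⟩
    rw [hp', hd']
    have h1 : (4 * d' + 2) * ((2 * p' + 1) * (2 * j + 1)) =
        4 * (d' * ((2 * p' + 1) * (2 * j + 1)) + (2 * p' * j + p' + j)) + 2 := by ring
    rw [h1]
    omega
  have hBB : BB Θ Bd (r + 1) := ⟨by omega, by omega, fun k => by have := hL k; omega⟩
  have hBo : Odd Bd := by
    rw [hB]
    exact ⟨j - 2 * D₀.natDegree, by omega⟩
  let K₀ := AlgebraicClosure K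
  let jL : L →ₐ[K] K₀ := IsAlgClosed.lift
  let iL : Algebra L K₀ := jL.toRingHom.toAlgebra
  have tKL : IsScalarTower K L K₀ := .of_algebraMap_eq fun x => (jL.commutes x).symm
  obtain ⟨N, i1, i2, i3, η, hη⟩ := exists_trb K₀ (Option (Fin (r + 1)))
  let i4 : Algebra K N := ((algebraMap K₀ N).comp (algebraMap K K₀)).toAlgebra
  let i4L : Algebra L N := ((algebraMap K₀ N).comp (algebraMap L K₀)).toAlgebra
  have i5 : IsScalarTower K K₀ N := .of_algebraMap_eq fun _ => rfl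
  have i5L : IsScalarTower L K₀ N := .of_algebraMap_eq fun _ => rfl
  have i6 : IsScalarTower K L N := .of_algebraMap_eq fun x => by
    rw [IsScalarTower.algebraMap_apply K K₀ N, IsScalarTower.algebraMap_apply K L K₀,
      ← IsScalarTower.algebraMap_apply L K₀ N]
  obtain ⟨s, hs⟩ : ∃ s : N, s = η none := ⟨_, rfl⟩
  obtain ⟨ν, hν⟩ : ∃ ν : Fin (r + 1) → N, ν = fun i => η (some i) := ⟨_, rfl⟩
  have hη' : (fun o : Option (Fin (r + 1)) => o.elim s ν) = η := by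
    funext o
    cases o with
    | none => exact hs
    | some i => rw [hν]; rfl
  rw [← hη'] at hη
  have hs0 : s ≠ 0 := hη.1.ne_zero none
  obtain ⟨x, θx, hx, hpt, hall, hder⟩ := hh.pts p K N Θ D₀ (D₀ ^ 4) d Bd (r + 1) hDD hBB rfl ν s hs0
  rw [← hnd]
  refine coreTQ (K₀ := K₀) (N := N) p 1 p (pow_one p).symm hh.tup hh.lift hh.ari π hπ hreg P θ Θ
      hθ hΘ D₀ d hDD β hβ a hsurj ha hperf Bd r _ (by omega) (by rw [hnd]; omega)
      (fun H hH => hn₁ _ (by rw [hnd]; omega) (r + 1) (by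
        rw [hnd, hj, hr]
        have h1 : 2 * c * (j + 1) = c * (2 * j + 2) := by ring
        rw [h1]
        exact Nat.mul_le_mul_left c (by omega)) (by rw [hnd]; omega) H hH)
      (lt_of_lt_of_le (by omega) (Nat.self_le_factorial _)) s ν hη x θx hx hpt hall χ ?_
  intro σ h τ hσs hσν hσL hperm hτ _
  refine sgnB hp2 hh.int hh.plB hh.uni hh.parB hDD hBB hBo hn2 hη x θx hx hpt hder hperm
    (algebraMap L N ρ) δ ?_ ?_ R hR (χ h) σ τ hσs ?_ hτ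
  · exact (map_ne_zero_iff _ (algebraMap L N).injective).2 hρ0
  · rw [← map_pow, ← hδ, ← IsScalarTower.algebraMap_apply]
  · rw [hσL, hρ, zsmul_eq_mul, zsmul_eq_mul, map_mul, map_intCast]

end odd

section two

variable (hh : Pieces) (hMT3 : St_mt3) (hEXT : S_EXT)
    {K L Z : Type} [Field K] [CharP K 2] [Infinite K] [Field L] [Algebra K L]
    [FiniteDimensional K L] [IsGalois K L] [Field Z] [Algebra (RatFunc K) Z] [Algebra L Z]
    [Algebra K Z] [IsScalarTower K (RatFunc K) Z] [IsScalarTower K L Z]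
    [FiniteDimensional (RatFunc K) Z] [IsGalois (RatFunc K) Z]
    (π : (Z ≃ₐ[RatFunc K] Z) →* (L ≃ₐ[K] L))
    (hπ : ∀ (σ : Z ≃ₐ[RatFunc K] Z) (x : L), σ (algebraMap L Z x) = algebraMap L Z (π σ x))
    (hreg : ∀ y : Z, IsAlgebraic L y → y ∈ Set.range (algebraMap L Z))
    (P : Subgroup (Z ≃ₐ[RatFunc K] Z)) {B : Type} [Group B] [Finite B] (β : P →* B)
    (hβ : Function.Surjective β) (a : B →* (L ≃ₐ[K] L)) (hsurj : Function.Surjective a)
    (ha : ∀ p : P, a (β p) = π p) (hperf : commutator a.ker = ⊤)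

include hh hMT3 hEXT hπ hreg hβ hsurj ha hperf

theorem oneAtwo : ∃ n₀ : ℕ, ∀ n ≥ n₀, 8 * P.index ∣ n →
    RegSol K L (AltTw a 1 n) (twProj a 1 n) := by
  classical
  obtain ⟨θ, Θ, D₀, hθ, hΘ, hDD⟩ := hh.data K Z P
  obtain ⟨d, hd⟩ : ∃ d, d = P.index := ⟨_, rfl⟩
  rw [← hd] at hDD ⊢
  have hd0 := hDD.pos
  obtain ⟨L', hL⟩ := exists_L Θ
  obtain ⟨c, hc⟩ : ∃ c, c = 8 * d := ⟨_, rfl⟩
  rw [← hc]
  have hc8 : 8 ≤ c := by omega
  obtain ⟨B₁, hB₁⟩ := parT1 hEXT K Θ D₀ d hDD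
  obtain ⟨n₁, hn₁⟩ := hMT3 (32 * c)
  obtain ⟨T, hT⟩ : ∃ T, T = 8 * D₀.natDegree + 2 * L' + 2 * B₁ + 256 := ⟨_, rfl⟩
  refine ⟨n₁ + c * T + 2 * (Nat.card a.ker) ^ 2 + 3, fun n hn0 hn => ?_⟩
  obtain ⟨j, hj⟩ := hn
  have hjT : T ≤ j := by
    by_contra h
    have h1 : c * j ≤ c * T := Nat.mul_le_mul_left c (by omega)
    omega
  have hjn : 8 * j ≤ n := by
    rw [hj]
    exact Nat.mul_le_mul_right j hc8
  obtain ⟨r, hr⟩ : ∃ r, r = j / 32 := ⟨_, rfl⟩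
  have hr1 : j ≤ 32 * (r + 1) := by omega
  have hr2 : 32 * r ≤ j := by omega
  obtain ⟨Bd, hB⟩ : ∃ Bd, Bd = j - 4 * D₀.natDegree := ⟨_, rfl⟩
  have hBδ : Bd + (D₀ ^ 4).natDegree = j := by
    rw [natDegree_pow, hB]
    omega
  have hnd : d * (8 * (Bd + (D₀ ^ 4).natDegree)) = n := by
    rw [hBδ, hj, hc]
    ring
  have hBB : BB Θ Bd (r + 1) := ⟨by omega, by omega, fun k => by have := hL k; omega⟩
  let K₀ := AlgebraicClosure K
  let jL : L →ₐ[K] K₀ := IsAlgClosed.lift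
  let iL : Algebra L K₀ := jL.toRingHom.toAlgebra
  have tKL : IsScalarTower K L K₀ := .of_algebraMap_eq fun x => (jL.commutes x).symm
  obtain ⟨N, i1, i2, i3, η, hη⟩ := exists_trb K₀ (Option (Fin (r + 1)))
  let i4 : Algebra K N := ((algebraMap K₀ N).comp (algebraMap K K₀)).toAlgebra
  let i4L : Algebra L N := ((algebraMap K₀ N).comp (algebraMap L K₀)).toAlgebra
  have i5 : IsScalarTower K K₀ N := .of_algebraMap_eq fun _ => rfl
  have i5L : IsScalarTower L K₀ N := .of_algebraMap_eq fun _ => rfl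
  have i6 : IsScalarTower K L N := .of_algebraMap_eq fun x => by
    rw [IsScalarTower.algebraMap_apply K K₀ N, IsScalarTower.algebraMap_apply K L K₀,
      ← IsScalarTower.algebraMap_apply L K₀ N]
  obtain ⟨s, hs⟩ : ∃ s : N, s = η none := ⟨_, rfl⟩
  obtain ⟨ν, hν⟩ : ∃ ν : Fin (r + 1) → N, ν = fun i => η (some i) := ⟨_, rfl⟩
  have hη' : (fun o : Option (Fin (r + 1)) => o.elim s ν) = η := by
    funext o
    cases o with
    | none => exact hs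
    | some i => rw [hν]; rfl
  rw [← hη'] at hη
  have hs0 : s ≠ 0 := hη.1.ne_zero none
  have hηK := Pool.Agent.W200.IJ.basis_down (M := K) _ hη
  obtain ⟨x, θx, hx, hpt, hall⟩ := Pool.Agent.H43W.ptsQ Pool.Agent.Y421.AW.t_res 2 3 8
    (by norm_num) (by norm_num) K N Θ D₀ (D₀ ^ 4) d Bd (r + 1) hDD hBB rfl ν s hs0
  rw [← hnd]
  refine coreTQ (K₀ := K₀) (N := N) 2 3 8 (by norm_num) hh.tup hh.lift hh.ari π hπ hreg P θ
    Θ hθ hΘ D₀ d hDD β hβ a hsurj ha hperf Bd r _ (by omega) (by rw [hnd]; omega)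
    (fun H hH => hn₁ _ (by rw [hnd]; omega) (r + 1) (by
        rw [hnd, hj]
        calc c * j ≤ c * (32 * (r + 1)) := Nat.mul_le_mul_left c hr1
          _ = 32 * c * (r + 1) := by ring) (by rw [hnd]; omega) H hH)
    (lt_of_lt_of_le (by omega) (Nat.self_le_factorial _)) s ν hη x θx hx hpt hall 1 ?_
  intro σ h τ hσs hσν _ hperm hτ _
  exact hB₁ N _ _ hηK (r + 1) ν s hs0 Bd (by omega) x θx hx hpt σ hσs hσν τ hτ

theorem oneBtwo (d : ℕ) (hd4 : 4 ≤ d) (χ : (L ≃ₐ[K] L) →* ℤˣ)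
    (hidx : SgnIndex (Z ≃ₐ[RatFunc K] Z) P d (χ.comp π)) :
    ∃ n₀ : ℕ, ∀ n ≥ n₀, n % (8 * d) = d → RegSol K L (AltTw a χ n) (twProj a χ n) := by
  classical
  obtain ⟨θ, Θ, D₀, hθ, hΘ, hDD⟩ := hh.data K Z P
  rw [index_of_sgnIndex hidx] at hDD
  have hd0 := hDD.pos
  obtain ⟨L', hL⟩ := exists_L Θ
  obtain ⟨B₁, hB₁⟩ := parT2 hEXT K Θ D₀ d hDD
  obtain ⟨n₁, hn₁⟩ := hMT3 (16 * d)
  obtain ⟨T, hT⟩ : ∃ T, T = 8 * D₀.natDegree + L' + B₁ + 32 := ⟨_, rfl⟩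
  refine ⟨n₁ + 8 * d * T + d + 2 * (Nat.card a.ker) ^ 2 + 3, fun n hn0 hnc => ?_⟩
  obtain ⟨j, hj⟩ : ∃ j, n = d * (8 * j + 1) := by
    refine ⟨n / (8 * d), ?_⟩
    have h1 := Nat.div_add_mod n (8 * d)
    rw [hnc] at h1
    calc n = 8 * d * (n / (8 * d)) + d := h1.symm
      _ = d * (8 * (n / (8 * d)) + 1) := by ring
  have hjT : T ≤ j := by
    by_contra h
    have h1 : d * (8 * j + 1) ≤ d * (8 * T) := Nat.mul_le_mul_left d (by omega)
    have h2 : d * (8 * T) = 8 * d * T := by ring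
    omega
  have hjn : 8 * j + 1 ≤ n := by
    rw [hj]
    nlinarith
  obtain ⟨r, hr⟩ : ∃ r, r = j / 2 := ⟨_, rfl⟩
  have hr1 : j ≤ 2 * r + 1 := by omega
  have hr2 : 2 * r ≤ j := by omega
  obtain ⟨Bd, hB⟩ : ∃ Bd, Bd = j - (4 * D₀.natDegree + 1) := ⟨_, rfl⟩
  have hDdeg : (D₀ ^ 4 * X).natDegree = 4 * D₀.natDegree + 1 := by
    rw [natDegree_mul (pow_ne_zero _ hDD.ne) X_ne_zero, natDegree_pow, natDegree_X]
  have hg : g3 D₀ Bd = 8 * j + 1 := by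
    unfold g3
    rw [hDdeg]
    omega
  have hnd : d * g3 D₀ Bd = n := by rw [hg, hj]
  have hm : r + 1 ≤ Bd := by omega
  have hco : ∀ k, (Θ.coeff k).natDegree < Bd := fun k => by have := hL k; omega
  let K₀ := AlgebraicClosure K
  let jL : L →ₐ[K] K₀ := IsAlgClosed.lift
  let iL : Algebra L K₀ := jL.toRingHom.toAlgebra
  have tKL : IsScalarTower K L K₀ := .of_algebraMap_eq fun x => (jL.commutes x).symm
  obtain ⟨N, i1, i2, i3, η, hη⟩ := exists_trb K₀ (Option (Fin (r + 1)))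
  let i4 : Algebra K N := ((algebraMap K₀ N).comp (algebraMap K K₀)).toAlgebra
  let i4L : Algebra L N := ((algebraMap K₀ N).comp (algebraMap L K₀)).toAlgebra
  have i5 : IsScalarTower K K₀ N := .of_algebraMap_eq fun _ => rfl
  have i5L : IsScalarTower L K₀ N := .of_algebraMap_eq fun _ => rfl
  have i6 : IsScalarTower K L N := .of_algebraMap_eq fun x => by
    rw [IsScalarTower.algebraMap_apply K K₀ N, IsScalarTower.algebraMap_apply K L K₀,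
      ← IsScalarTower.algebraMap_apply L K₀ N]
  have hcN : CharP N 2 := charP_of_injective_algebraMap (algebraMap K N).injective 2
  obtain ⟨s, hs⟩ : ∃ s : N, s = η none := ⟨_, rfl⟩
  obtain ⟨ν, hν⟩ : ∃ ν : Fin (r + 1) → N, ν = fun i => η (some i) := ⟨_, rfl⟩
  have hη' : (fun o : Option (Fin (r + 1)) => o.elim s ν) = η := by
    funext o
    cases o with
    | none => exact hs
    | some i => rw [hν]; rfl
  rw [← hη'] at hη
  have hs0 : s ≠ 0 := hη.1.ne_zero none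
  have hνi : AlgebraicIndependent K₀ ν := hη.1.comp some (Option.some_injective _)
  have hηK := Pool.Agent.W200.IJ.basis_down (M := K) _ hη
  obtain ⟨x, θx, hx, hpt, hall⟩ := t_pts3 Pool.Agent.Y421.AW.t_res K N Θ D₀ d Bd (r + 1) hDD hm
    hco ν s hs0
  obtain ⟨z, hz, hz0, hzall⟩ := zer3 K N D₀ hDD.ne Bd (r + 1) hm ν
  have hPπ : P.map π = ⊤ := by
    rw [Subgroup.eq_top_iff']
    intro h
    obtain ⟨b, hb⟩ := hsurj h
    obtain ⟨u, hu⟩ := hβ b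
    exact ⟨u, u.2, by rw [← ha, hu, hb]⟩
  obtain ⟨b, hb1, hb2, hb3⟩ := zer_sgn hh.lift π hπ P hPπ θ Θ hθ hΘ D₀ d hDD χ hidx z hz
    (fun i => zer_trans K K₀ N _ Bd r ν hνi (z i) (hz0 i))
  rw [← hnd]
  refine coreT (K₀ := K₀) (N := N) hh.tup hh.lift hh.ari π hπ hreg P θ Θ hθ hΘ β hβ a
      hsurj ha hperf r _ (by omega) (by rw [hnd]; omega)
      (fun H hH => hn₁ _ (by rw [hnd]; omega) (r + 1) (by
        rw [hnd, hj]
        calc d * (8 * j + 1) ≤ d * (16 * (r + 1)) := Nat.mul_le_mul_left d (by omega)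
          _ = 16 * d * (r + 1) := by ring) (by rw [hnd]; omega) H hH)
      (lt_of_lt_of_le (by omega) (Nat.self_le_factorial _)) s ν hη x θx hx
      (fun ν' s' u v => IsPt3 Θ (D₀ ^ 4 * X) Bd ν' s' u v) (fun u v h => h.1)
      (fun σ u v h => h.map (σ : N →ₐ[K] N)) (fun ν' u v hu h h' => lin3 u v hu h h')
      (fun u v hu h => indep3 K K₀ N Θ D₀ (D₀ ^ 4 * X) d Bd (r + 1) hDD ν s hη u v hu h)
      hpt hall χ ?_
  intro σ h τ hσs hσν hσL _ hτ _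
  -- the permutation of the zeros
  have hσz : ∀ i, ∃ i', σ (z i) = z i' := by
    intro i
    refine hzall _ ?_
    have h1 := G3_map (D₀ ^ 4 * X) Bd ν (σ : N →ₐ[K] N)
    have h2 : (fun i => (σ : N →ₐ[K] N) (ν i)) = ν := funext hσν
    rw [h2] at h1
    rw [h1, eval_map]
    have h3 : eval₂ ((σ : N →ₐ[K] N) : N →+* N) (σ (z i)) (G3 (D₀ ^ 4 * X) Bd ν) =
        (σ : N →ₐ[K] N) ((G3 (D₀ ^ 4 * X) Bd ν).eval (z i)) :=
      eval₂_at_apply ((σ : N →ₐ[K] N) : N →+* N) (z i)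
    rw [h3, hz0, map_zero]
  choose f hf using hσz
  have hfi : Function.Injective f := by
    intro i i' h'
    apply hz
    apply σ.injective
    rw [hf, hf, h']
  let τ' : Equiv.Perm (Fin (g3 D₀ Bd)) :=
    Equiv.ofBijective f (Finite.injective_iff_bijective.1 hfi)
  obtain ⟨ω, hω1, hω2⟩ := hb3 σ h τ' hσL hf
  exact hB₁ N _ _ hηK (r + 1) ν s hs0 Bd (by omega) hm x θx hx hpt z b hz hb1 hz0 hb2 σ hσs hσν τ
    hτ τ' ω (χ h) hf hω1 hω2

end two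

end Pool.Agent.XE31.AD
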