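import Mathlib
import Pool.Agent.XE31.AD.Main

/-!
Project AD: the main theorems for all large degrees (end).
-/

set_option autoImplicit false
set_option linter.unusedSectionVars false
set_option linter.unusedSimpArgs false

namespace Pool.Agent.XE31.AD

open Polynomial Pool.Agent.H391R2 Pool.Agent.H391R2.T4 Pool.Agent.Y793 Pool.Agent.Y140.AW
open Pool.Agent.N70.EP (SgnIndex)
open Pool.Agent.N70.PP
open Pool.Agent.XE31.C2

/-- All large multiples of a number, trivial character, no weak solution. -/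
def St_mAall : Prop :=
  ∀ (p : ℕ) [Fact p.Prime] (K L : Type) [Field K] [CharP K p] [Infinite K] [Field L]
    [Algebra K L] [FiniteDimensional K L] [IsGalois K L] (B : Type) [Group B] [Finite B]
    (a : B →* (L ≃ₐ[K] L)), Function.Surjective a → commutator a.ker = ⊤ →
    ∃ M > 0, ∃ n₀ : ℕ, ∀ n ≥ n₀, M ∣ n → RegSol K L (AltTw a 1 n) (twProj a 1 n)

theorem mAall_of (hMT3 : St_mt3) (hEXT : S_EXT) : St_mAall := by
  intro p _ K L _ _ _ _ _ _ _ B _ _ a ha hperf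
  have hh : Pieces := hyp.toPieces
  have hp0 : 0 < p := (Fact.out : p.Prime).pos
  obtain ⟨m, hm⟩ : ∃ m, m = Nat.card (L ≃ₐ[K] L) := ⟨_, rfl⟩
  obtain ⟨k, hk⟩ : ∃ k, k = ((3 * Nat.card (symProj a m).ker + 2).factorial) ^ 3 := ⟨_, rfl⟩
  have hm0 : 0 < m := by
    rw [hm]
    exact Nat.card_pos
  have hk0 : 0 < k := by
    rw [hk]
    positivity
  obtain ⟨Z, i1, i2, i3, i4, i5, i6, i7, i8, γ, hγ, hreg⟩ :=
    Pool.Agent.N600.NS.reg_twofold K L B a ha m (by rw [hm]) k hk.ge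
  obtain ⟨P, β, hβ, hβ2⟩ := hh.grpA (L ≃ₐ[K] L) B a ha m k hm0 hk0
  let P' := P.comap (γ : (Z ≃ₐ[RatFunc K] Z) →* SymEP (symProj a m) k)
  have hmap : P'.map (γ : (Z ≃ₐ[RatFunc K] Z) →* SymEP (symProj a m) k) = P :=
    Subgroup.map_comap_eq_self_of_surjective γ.surjective P
  let e : P' ≃* P := (γ.subgroupMap P').trans (MulEquiv.subgroupCongr hmap)
  have hZf : Finite (Z ≃ₐ[RatFunc K] Z) := inferInstance
  have hidx : 0 < P'.index := Nat.pos_of_ne_zero Subgroup.index_ne_zero_of_finite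
  by_cases hp2 : p = 2
  · subst hp2
    obtain ⟨n₁, h₁⟩ := oneAtwo hh hMT3 hEXT ((symProj (symProj a m) k).comp
      (γ : (Z ≃ₐ[RatFunc K] Z) →* SymEP (symProj a m) k)) hγ hreg P' (β.comp (e : P' →* P))
      (hβ.comp e.surjective) a ha (fun u => hβ2 (e u)) hperf
    exact ⟨8 * P'.index, by omega, n₁, h₁⟩
  · obtain ⟨n₁, h₁⟩ := oneAodd p hp2 hh hMT3 ((symProj (symProj a m) k).comp
      (γ : (Z ≃ₐ[RatFunc K] Z) →* SymEP (symProj a m) k)) hγ hreg P' (β.comp (e : P' →* P))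
      (hβ.comp e.surjective) a ha (fun u => hβ2 (e u)) hperf
    exact ⟨4 * P'.index * p, by positivity, n₁, h₁⟩

theorem mBall_of (hMT3 : St_mt3) (hEXT : S_EXT) : St_mBall := by
  intro p _ K L _ _ _ _ _ _ _ B _ _ a ha hperf hw r hr hr2
  have hh : Pieces := hyp.toPieces
  have h1 : ∀ χ : (L ≃ₐ[K] L) →* ℤˣ, ∃ n₀ : ℕ, ∀ n ≥ n₀, Deg p r n →
      RegSol K L (AltTw a χ n) (twProj a χ n) := by
    intro χ
    have hker : Nat.card (a.comp (MonoidHom.fst B (Equiv.Perm (Fin 4)))).ker =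
        24 * Nat.card a.ker := by
      have e : (a.comp (MonoidHom.fst B (Equiv.Perm (Fin 4)))).ker ≃
          Equiv.Perm (Fin 4) × a.ker :=
        { toFun := fun x => (x.1.2, ⟨x.1.1, x.2⟩)
          invFun := fun y => ⟨(y.2.1, y.1), y.2.2⟩
          left_inv := fun x => rfl
          right_inv := fun y => rfl }
      rw [Nat.card_congr e, Nat.card_prod, Nat.card_eq_fintype_card (α := Equiv.Perm (Fin 4)),
        Fintype.card_perm, Fintype.card_fin]
      rfl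
    have hws : WeakSol K L (B × Equiv.Perm (Fin 4))
        (a.comp (MonoidHom.fst B (Equiv.Perm (Fin 4)))) := by
      obtain ⟨L', i1, i2, i3, i4, i5, i6, s, hs⟩ := hw
      exact ⟨L', i1, i2, i3, i4, i5, i6, (MonoidHom.inl B (Equiv.Perm (Fin 4))).comp s, hs⟩
    obtain ⟨Z, i1, i2, i3, i4, i5, i6, i7, i8, γ, hγ, hreg⟩ :=
      Pool.Agent.TH59.WX.reg_sym_unif K L (B × Equiv.Perm (Fin 4))
        (a.comp (MonoidHom.fst B (Equiv.Perm (Fin 4)))) hws r (by
          rw [hker]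
          have h2 : 3 * (24 * Nat.card a.ker) + 2 = 72 * Nat.card a.ker + 2 := by ring
          rwa [h2])
    obtain ⟨P, β, hβ, hβ2, hidx⟩ := Pool.Agent.N342.EP.t_grp1 (L ≃ₐ[K] L) B a ha χ r hr
    let P' := P.comap (γ : (Z ≃ₐ[RatFunc K] Z) →* _)
    have hmap : P'.map (γ : (Z ≃ₐ[RatFunc K] Z) →* _) = P :=
      Subgroup.map_comap_eq_self_of_surjective γ.surjective P
    let e : P' ≃* P := (γ.subgroupMap P').trans (MulEquiv.subgroupCongr hmap)
    have hidx' := sgnIndex_comap γ P (6 * r) _ hidx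
    by_cases hp2 : p = 2
    · subst hp2
      obtain ⟨n₁, h₁⟩ := oneBtwo hh hMT3 hEXT
        ((symProj (a.comp (MonoidHom.fst B (Equiv.Perm (Fin 4)))) r).comp
        (γ : (Z ≃ₐ[RatFunc K] Z) →* _)) hγ hreg P' (β.comp (e : P' →* P)) (hβ.comp e.surjective)
        a ha (fun u => hβ2 (e u)) hperf (6 * r) (by obtain ⟨r', hr'⟩ := hr; omega) χ hidx'
      refine ⟨n₁, fun n hn hd => h₁ n hn ?_⟩
      have h3 := hd.1 rfl
      rw [← h3]
      congr 1
      omega
    · obtain ⟨n₁, h₁⟩ := oneBodd p hp2 hh hMT3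
        ((symProj (a.comp (MonoidHom.fst B (Equiv.Perm (Fin 4)))) r).comp
        (γ : (Z ≃ₐ[RatFunc K] Z) →* _)) hγ hreg P' (β.comp (e : P' →* P)) (hβ.comp e.surjective)
        a ha (fun u => hβ2 (e u)) hperf (6 * r) (by obtain ⟨r', hr'⟩ := hr; omega) χ hidx'
      refine ⟨n₁, fun n hn hd => h₁ n hn ?_⟩
      have h3 := hd.2 hp2
      have h4 : 2 * (6 * r * p) = 12 * r * p := by ring
      rw [h4]
      exact h3
  choose f hf using h1
  have hfin : Finite ((L ≃ₐ[K] L) →* ℤˣ) :=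
    Finite.of_injective (fun f : (L ≃ₐ[K] L) →* ℤˣ => (f : (L ≃ₐ[K] L) → ℤˣ))
      DFunLike.coe_injective
  have hft := Fintype.ofFinite ((L ≃ₐ[K] L) →* ℤˣ)
  refine ⟨Finset.univ.sup f, fun n hn hd χ => hf χ n ?_ hd⟩
  exact (Finset.le_sup (f := f) (Finset.mem_univ χ)).trans hn

end Pool.Agent.XE31.AD
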