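import Pool.Agent.XE31.AD.Stm

/-!
Project AD, piece MTC1 (helper41): an element with small support gives a three-cycle.
-/

set_option autoImplicit false

namespace Pool.Agent.XE31.AD

open Equiv

lemma comm_three {α : Type} [Fintype α] [DecidableEq α] (x z : Perm α) (s : α) (hx : x s ≠ s)
    (hz : z s ≠ s) (hF : ∀ w, w ≠ s → x w = w ∨ z w = w) : (x * z * x⁻¹ * z⁻¹).IsThreeCycle := by
  have hxu : x (x s) ≠ x s := fun h => hx (x.injective h)
  have hzv : z (z s) ≠ z s := fun h => hz (z.injective h)
  have hzu : z (x s) = x s := (hF _ hx).resolve_left hxu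
  have hxv : x (z s) = z s := (hF _ hz).resolve_right hzv
  have huv : x s ≠ z s := by
    intro h
    rw [← h] at hzv
    exact hzv hzu
  have key : x * z * x⁻¹ * z⁻¹ = swap (z s) (x s) * swap (z s) s := by
    rw [mul_inv_eq_iff_eq_mul, mul_inv_eq_iff_eq_mul]
    ext a
    simp only [Perm.mul_apply]
    have gfix : ∀ w, w ≠ s → w ≠ x s → w ≠ z s → swap (z s) (x s) (swap (z s) s w) = w := by
      intro w h1 h2 h3
      rw [swap_apply_of_ne_of_ne h3 h1, swap_apply_of_ne_of_ne h3 h2]
    have gu : swap (z s) (x s) (swap (z s) s (x s)) = z s := by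
      rw [swap_apply_of_ne_of_ne huv hx, swap_apply_right]
    have gs : swap (z s) (x s) (swap (z s) s s) = x s := by
      rw [swap_apply_right, swap_apply_left]
    have gv : swap (z s) (x s) (swap (z s) s (z s)) = s := by
      rw [swap_apply_left, swap_apply_of_ne_of_ne hz.symm hx.symm]
    by_cases ha : a = s
    · rw [ha, hxv, hzu, gu]
    · by_cases h1 : x a = a
      · by_cases h2 : z a = a
        · rw [h2, h1, h2, gfix a ha]
          · rintro rfl
            exact hxu h1
          · rintro rfl
            exact hzv h2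
        · rw [h1]
          by_cases h3 : z a = s
          · rw [h3, gs]
          · have h4 : z (z a) ≠ z a := fun h => h2 (z.injective h)
            have h5 : x (z a) = z a := (hF _ h3).resolve_right h4
            rw [h5, gfix _ h3]
            · intro h
              have h6 : a = x s := z.injective (h.trans hzu.symm)
              rw [h6] at h1
              exact hxu h1
            · intro h
              exact ha (z.injective h)
      · have h2 : z a = a := (hF _ ha).resolve_left h1
        rw [h2]
        by_cases h3 : x a = s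
        · rw [h3, gv]
        · have h4 : x (x a) ≠ x a := fun h => h1 (x.injective h)
          have h5 : z (x a) = x a := (hF _ h3).resolve_left h4
          rw [h5, gfix _ h3]
          · intro h
            exact ha (x.injective h)
          · intro h
            have h6 : a = z s := x.injective (h.trans hxv.symm)
            rw [h6] at h1
            exact h1 hxv
  rw [key]
  exact Perm.isThreeCycle_swap_mul_swap_same huv.symm hz hx

theorem t_MTC1 : S_MTC1 := by
  classical
  intro n k H hkn hT x hxH hx1 hxk h2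
  obtain ⟨s, hs⟩ : x.support.Nonempty := by
    rw [Finset.nonempty_iff_ne_empty, Ne, Perm.support_eq_empty_iff]
    exact hx1
  have hxs : x s ≠ s := Perm.mem_support.1 hs
  -- the set and the map
  obtain ⟨S, hS⟩ : ∃ S, S = x.support := ⟨_, rfl⟩
  rw [← hS] at hs hxk h2
  have hcard : (S.erase s).card ≤ Sᶜ.card := by
    rw [Finset.card_erase_of_mem hs, Finset.card_compl, Fintype.card_fin]
    omega
  obtain ⟨e⟩ : Nonempty ((S.erase s : Finset (Fin n)) ↪ (Sᶜ : Finset (Fin n))) := by
    apply Function.Embedding.nonempty_of_card_le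
    rw [Fintype.card_coe, Fintype.card_coe]
    exact hcard
  let φ : {w // w ∈ S} → Fin n := fun w =>
    if h : (w : Fin n) = s then s else (e ⟨w, Finset.mem_erase.2 ⟨h, w.2⟩⟩ : Fin n)
  have hφs : ∀ w : {w // w ∈ S}, (w : Fin n) = s → φ w = s := fun w h => dif_pos h
  have hφn : ∀ (w : {w // w ∈ S}) (h : (w : Fin n) ≠ s),
      φ w = (e ⟨w, Finset.mem_erase.2 ⟨h, w.2⟩⟩ : Fin n) := fun w h => dif_neg h
  have hφS : ∀ (w : {w // w ∈ S}), (w : Fin n) ≠ s → φ w ∉ S := by
    intro w h
    rw [hφn w h]
    exact Finset.mem_compl.1 (e ⟨w, Finset.mem_erase.2 ⟨h, w.2⟩⟩).2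
  have hφ : Function.Injective φ := by
    intro w w' h
    by_cases h1 : (w : Fin n) = s
    · by_cases h3 : (w' : Fin n) = s
      · exact Subtype.ext (h1.trans h3.symm)
      · exfalso
        apply hφS w' h3
        rw [← h, hφs w h1]
        exact hs
    · by_cases h3 : (w' : Fin n) = s
      · exfalso
        apply hφS w h1
        rw [h, hφs w' h3]
        exact hs
      · rw [hφn w h1, hφn w' h3] at h
        have h4 := e.injective (Subtype.ext h)
        have h5 := congrArg Subtype.val h4
        exact Subtype.ext h5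
  let g : Perm (Fin n) := (Equiv.ofInjective φ hφ).extendSubtype
  have hg : ∀ w : {w // w ∈ S}, g w = φ w := by
    intro w
    have := Equiv.extendSubtype_apply_of_mem (Equiv.ofInjective φ hφ) (w : Fin n) w.2
    rw [this]
    rfl
  -- the tuples
  obtain ⟨T, hST, -, hTc⟩ := Finset.exists_subsuperset_card_eq (Finset.subset_univ S) hxk
    (by rw [Finset.card_univ, Fintype.card_fin]; exact hkn)
  let a : Fin k → Fin n := fun i => ((T.equivFinOfCardEq hTc).symm i : Fin n)
  have ha : Function.Injective a := fun i j h =>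
    (T.equivFinOfCardEq hTc).symm.injective (Subtype.ext h)
  obtain ⟨y, hyH, hy⟩ := hT a (g ∘ a) ha (g.injective.comp ha)
  have hyS : ∀ w (hw : w ∈ S), y w = φ ⟨w, hw⟩ := by
    intro w hw
    have h3 := hy (T.equivFinOfCardEq hTc ⟨w, hST hw⟩)
    have h4 : a (T.equivFinOfCardEq hTc ⟨w, hST hw⟩) = w := by
      show (((T.equivFinOfCardEq hTc).symm (T.equivFinOfCardEq hTc ⟨w, hST hw⟩) : T) : Fin n) = w
      rw [Equiv.symm_apply_apply]
    rw [Function.comp_apply, h4] at h3
    rw [h3]
    exact hg ⟨w, hw⟩
  have hys : y s = s := by rw [hyS s hs, hφs _ rfl]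
  have hyn : ∀ w ∈ S, w ≠ s → y w ∉ S := by
    intro w hw hne
    rw [hyS w hw]
    exact hφS ⟨w, hw⟩ hne
  refine ⟨x * (y * x * y⁻¹) * x⁻¹ * (y * x * y⁻¹)⁻¹, ?_, ?_⟩
  · exact H.mul_mem (H.mul_mem (H.mul_mem hxH (H.mul_mem (H.mul_mem hyH hxH) (H.inv_mem hyH)))
      (H.inv_mem hxH)) (H.inv_mem (H.mul_mem (H.mul_mem hyH hxH) (H.inv_mem hyH)))
  · have hysi : y⁻¹ s = s := by rw [Perm.inv_eq_iff_eq, hys]
    apply comm_three x (y * x * y⁻¹) s hxs
    · rw [Perm.mul_apply, Perm.mul_apply, hysi]
      intro h
      apply hxs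
      apply y.injective
      rw [h, hys]
    · intro w hw
      by_contra hcon
      push Not at hcon
      obtain ⟨h3, h4⟩ := hcon
      rw [Perm.mul_apply, Perm.mul_apply] at h4
      have h5 : w ∈ S := by rw [hS]; exact Perm.mem_support.2 h3
      have h6 : y⁻¹ w ∈ S := by
        rw [hS]
        refine Perm.mem_support.2 fun h => h4 ?_
        rw [h]
        exact y.apply_symm_apply w
      have h7 : y (y⁻¹ w) = w := y.apply_symm_apply w
      by_cases h8 : y⁻¹ w = s
      · apply hw
        rw [← h7, h8, hys]
      · apply hyn _ h6 h8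
        rw [h7]
        exact h5

end Pool.Agent.XE31.AD
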