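import Pool.Agent.XE31.AD.Stm

/-!
# Project AD (helper31), piece MTC2 (helper33)
-/

set_option autoImplicit false
set_option linter.all false

namespace Pool.Agent.XE31.AD

open Finset Function

/-- a chain of primes -/
theorem MTC2.primes (a : ℕ) (ha : 0 < a) : ∃ q : ℕ → ℕ, (∀ i, (q i).Prime) ∧ StrictMono q ∧
    ∀ i, a < q i ∧ q i ≤ 2 ^ (i + 1) * a := by
  have h1 : ∀ m : ℕ, ∃ p : ℕ, m ≠ 0 → p.Prime ∧ m < p ∧ p ≤ 2 * m := by
    intro m
    by_cases hm : m = 0
    · exact ⟨0, fun h => absurd hm h⟩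
    · obtain ⟨p, hp⟩ := Nat.exists_prime_lt_and_le_two_mul m hm
      exact ⟨p, fun _ => hp⟩
  choose f hf using h1
  let q : ℕ → ℕ := fun i => Nat.rec (f a) (fun _ m => f m) i
  have hq0 : q 0 = f a := rfl
  have hqs : ∀ i, q (i + 1) = f (q i) := fun i => rfl
  have hpr : ∀ i, (q i).Prime := by
    intro i
    induction i with
    | zero => exact (hf a (by omega)).1
    | succ i ih => rw [hqs]; exact (hf _ ih.ne_zero).1
  have hmono : StrictMono q := strictMono_nat_of_lt_succ fun i => by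
    rw [hqs]; exact (hf _ (hpr i).ne_zero).2.1
  refine ⟨q, hpr, hmono, fun i => ⟨?_, ?_⟩⟩
  · calc a < q 0 := (hf a (by omega)).2.1
      _ ≤ q i := hmono.monotone (Nat.zero_le i)
  · induction i with
    | zero => rw [hq0]; simpa using (hf a (by omega)).2.2
    | succ i ih =>
      rw [hqs]
      refine ((hf _ (hpr i).ne_zero).2.2).trans ?_
      calc 2 * q i ≤ 2 * (2 ^ (i + 1) * a) := Nat.mul_le_mul_left _ ih
        _ = 2 ^ (i + 1 + 1) * a := by ring

/-- a permutation with given prime cycle lengths has points with these periods -/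
theorem MTC2.perm {k : ℕ} (q : ℕ → ℕ) (hq : ∀ i, (q i).Prime) (j : ℕ)
    (hs : ∑ i ∈ range j, q i ≤ k) : ∃ π : Equiv.Perm (Fin k), ∀ i < j, ∃ ω : Fin k,
      minimalPeriod π ω = q i := by
  obtain ⟨π, hπ⟩ := (Equiv.Perm.exists_with_cycleType_iff (Fin k)
    (m := (Multiset.range j).map q)).2 ⟨by
      rw [Fintype.card_fin]; exact hs, by
      intro a ha
      obtain ⟨i, -, rfl⟩ := Multiset.mem_map.1 ha
      exact (hq i).two_le⟩
  refine ⟨π, fun i hi => ?_⟩
  have hmem : q i ∈ π.cycleType := by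
    rw [hπ]; exact Multiset.mem_map.2 ⟨i, Multiset.mem_range.2 hi, rfl⟩
  obtain ⟨c, τ, hcτ, hdis, hc, hcard⟩ := Equiv.Perm.mem_cycleType_iff.1 hmem
  have hne : c.support.Nonempty := by
    rw [← card_pos, hcard]; exact (hq i).pos
  obtain ⟨ω, hω⟩ := hne
  rw [Equiv.Perm.mem_support] at hω
  haveI : Fact (q i).Prime := ⟨hq i⟩
  have hτ : τ ω = ω := (Equiv.Perm.disjoint_iff_eq_or_eq.1 hdis ω).resolve_left hω
  have hτp : ∀ t : ℕ, (τ ^ t) ω = ω := by
    intro t
    induction t with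
    | zero => simp
    | succ t ih => rw [pow_succ, Equiv.Perm.mul_apply, hτ, ih]
  refine ⟨ω, minimalPeriod_eq_prime ?_ ?_⟩
  · unfold IsPeriodicPt IsFixedPt
    rw [Equiv.Perm.iterate_eq_pow, hcτ, hdis.commute.mul_pow, Equiv.Perm.mul_apply, hτp,
      ← hcard, ← hc.orderOf, pow_orderOf_eq_one, Equiv.Perm.one_apply]
  · unfold IsFixedPt
    rw [hcτ, Equiv.Perm.mul_apply, hτ]
    exact hω

/-- the prime part of a permutation -/
theorem MTC2.part {n : ℕ} (x : Equiv.Perm (Fin n)) (q : ℕ) (hq : q.Prime) (ω₀ : Fin n)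
    (h0 : minimalPeriod x ω₀ = q) : ∃ M : ℕ, x ^ M ≠ 1 ∧
      ∀ ω, (x ^ M) ω ≠ ω → q ∣ minimalPeriod x ω := by
  have hN : orderOf x ≠ 0 := (orderOf_pos x).ne'
  refine ⟨orderOf x / q ^ (orderOf x).factorization q, ?_, ?_⟩
  · intro h1
    have h2 : IsPeriodicPt x (orderOf x / q ^ (orderOf x).factorization q) ω₀ := by
      unfold IsPeriodicPt IsFixedPt
      rw [Equiv.Perm.iterate_eq_pow, h1, Equiv.Perm.one_apply]
    have h3 := isPeriodicPt_iff_minimalPeriod_dvd.1 h2
    rw [h0] at h3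
    exact Nat.not_dvd_ordCompl hq hN h3
  · intro ω hω
    by_contra hnd
    apply hω
    have h1 : IsPeriodicPt x (orderOf x) ω := by
      unfold IsPeriodicPt IsFixedPt
      rw [Equiv.Perm.iterate_eq_pow, pow_orderOf_eq_one, Equiv.Perm.one_apply]
    have h2 := isPeriodicPt_iff_minimalPeriod_dvd.1 h1
    rw [← Nat.ordProj_mul_ordCompl_eq_self (orderOf x) q] at h2
    have h3 : Nat.Coprime (minimalPeriod x ω) (q ^ (orderOf x).factorization q) :=
      Nat.Coprime.pow_right _ ((Nat.Prime.coprime_iff_not_dvd hq).2 hnd).symm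
    have h4 := h3.dvd_of_dvd_mul_left h2
    have h5 := isPeriodicPt_iff_minimalPeriod_dvd.2 h4
    unfold IsPeriodicPt IsFixedPt at h5
    rwa [Equiv.Perm.iterate_eq_pow] at h5

theorem t_MTC2 : S_MTC2 := by
  intro c
  set j : ℕ := 2 * c + 4 with hj
  set L : ℕ := c * (j * 2 ^ j) with hL
  refine ⟨(L + 2) ^ 3, fun n hn k hck hkn H hH => ?_⟩
  have hn0 : 0 < n := lt_of_lt_of_le (by positivity) hn
  have hc : 0 < c := by
    rcases Nat.eq_zero_or_pos c with h | h
    · rw [h, zero_mul] at hck; omega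
    · exact h
  -- the number a
  have hex : ∃ a : ℕ, n < a ^ 3 := ⟨n + 1, by nlinarith [Nat.zero_le n, sq_nonneg n]⟩
  obtain ⟨a, ha, hmin⟩ : ∃ a : ℕ, n < a ^ 3 ∧ ∀ b < a, b ^ 3 ≤ n :=
    ⟨Nat.find hex, Nat.find_spec hex, fun b hb => not_lt.1 (Nat.find_min hex hb)⟩
  have haL : L + 2 < a := by
    by_contra hcon
    have h1 : a ^ 3 ≤ (L + 2) ^ 3 := Nat.pow_le_pow_left (not_lt.1 hcon) 3
    omega
  obtain ⟨b, rfl⟩ : ∃ b, a = b + 1 := ⟨a - 1, by omega⟩
  have hb3 : b ^ 3 ≤ n := hmin b (by omega)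
  obtain ⟨q, hq, hmono, hqb⟩ := MTC2.primes (b + 1) (by omega)
  have hsum : ∑ i ∈ range j, q i ≤ j * (2 ^ j * (b + 1)) := by
    have h1 : ∀ i ∈ range j, q i ≤ 2 ^ j * (b + 1) := by
      intro i hi
      refine (hqb i).2.trans (Nat.mul_le_mul_right _ ?_)
      exact Nat.pow_le_pow_right (by norm_num) (mem_range.1 hi)
    have h2 := sum_le_card_nsmul _ _ _ h1
    rwa [card_range, smul_eq_mul] at h2
  have hcs : c * ∑ i ∈ range j, q i ≤ n := by
    refine le_trans (Nat.mul_le_mul_left _ hsum) (le_trans ?_ hb3)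
    have h1 : c * (j * (2 ^ j * (b + 1))) = L * (b + 1) := by rw [hL]; ring
    rw [h1]
    have h2 : L + 2 ≤ b := by omega
    calc L * (b + 1) ≤ b * (b + 1) := Nat.mul_le_mul_right _ (by omega)
      _ ≤ b * (b * b) := Nat.mul_le_mul_left _ (by nlinarith)
      _ = b ^ 3 := by ring
  have hsk : ∑ i ∈ range j, q i ≤ k := Nat.le_of_mul_le_mul_left (hcs.trans hck) hc
  obtain ⟨π, hπ⟩ := MTC2.perm q hq j hsk
  -- the element x
  obtain ⟨x, hxH, hx⟩ := hH (fun t => Fin.castLE hkn t) (fun t => Fin.castLE hkn (π t))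
    (Fin.castLE_injective hkn) ((Fin.castLE_injective hkn).comp π.injective)
  have hit : ∀ (t : ℕ) (ω : Fin k), (x : Fin n → Fin n)^[t] (Fin.castLE hkn ω) =
      Fin.castLE hkn ((π : Fin k → Fin k)^[t] ω) := by
    intro t
    induction t with
    | zero => intro ω; rfl
    | succ t ih =>
      intro ω
      rw [iterate_succ_apply, iterate_succ_apply, ← ih]
      rw [show x (Fin.castLE hkn ω) = Fin.castLE hkn (π ω) from hx ω]
  have hper : ∀ i < j, ∃ ω : Fin n, minimalPeriod x ω = q i := by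
    intro i hi
    obtain ⟨ω, hω⟩ := hπ i hi
    haveI : Fact (q i).Prime := ⟨hq i⟩
    obtain ⟨h1, h2⟩ := minimalPeriod_eq_prime_iff.1 hω
    refine ⟨Fin.castLE hkn ω, minimalPeriod_eq_prime ?_ ?_⟩
    · unfold IsPeriodicPt IsFixedPt at h1 ⊢
      rw [hit, h1]
    · intro h3
      apply h2
      unfold IsFixedPt at h3 ⊢
      have h4 : x (Fin.castLE hkn ω) = Fin.castLE hkn (π ω) := hx ω
      rw [h4] at h3
      exact Fin.castLE_injective hkn h3
  -- the powers
  have hM : ∀ i, ∃ M : ℕ, i < j → x ^ M ≠ 1 ∧ ∀ ω, (x ^ M) ω ≠ ω → q i ∣ minimalPeriod x ω := by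
    intro i
    by_cases hi : i < j
    · obtain ⟨ω, hω⟩ := hper i hi
      obtain ⟨M, hM⟩ := MTC2.part x (q i) (hq i) ω hω
      exact ⟨M, fun _ => hM⟩
    · exact ⟨0, fun h => absurd h hi⟩
  choose M hM using hM
  -- at most two primes
  have htwo : ∀ ω : Fin n, ((range j).filter fun i => q i ∣ minimalPeriod x ω).card ≤ 2 := by
    intro ω
    by_contra hcon
    rw [not_le, two_lt_card] at hcon
    obtain ⟨i₁, h1, i₂, h2, i₃, h3, h12, h13, h23⟩ := hcon
    have d1 := (mem_filter.1 h1).2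
    have d2 := (mem_filter.1 h2).2
    have d3 := (mem_filter.1 h3).2
    have c12 : Nat.Coprime (q i₁) (q i₂) :=
      (Nat.coprime_primes (hq _) (hq _)).2 (hmono.injective.ne h12)
    have c13 : Nat.Coprime (q i₁) (q i₃) :=
      (Nat.coprime_primes (hq _) (hq _)).2 (hmono.injective.ne h13)
    have c23 : Nat.Coprime (q i₂) (q i₃) :=
      (Nat.coprime_primes (hq _) (hq _)).2 (hmono.injective.ne h23)
    have hd := Nat.Coprime.mul_dvd_of_dvd_of_dvd (Nat.Coprime.mul_left c13 c23)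
      (Nat.Coprime.mul_dvd_of_dvd_of_dvd c12 d1 d2) d3
    have hpos : 0 < minimalPeriod x ω := by
      refine Nat.pos_of_dvd_of_pos ?_ (orderOf_pos x)
      refine isPeriodicPt_iff_minimalPeriod_dvd.1 ?_
      unfold IsPeriodicPt IsFixedPt
      rw [Equiv.Perm.iterate_eq_pow, pow_orderOf_eq_one, Equiv.Perm.one_apply]
    have hle := Nat.le_of_dvd hpos hd
    have hle2 : minimalPeriod x ω ≤ n := by
      have := minimalPeriod_le_card (f := (x : Fin n → Fin n)) (x := ω)
      rwa [Fintype.card_fin] at this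
    have e1 := (hqb i₁).1
    have e2 := (hqb i₂).1
    have e3 := (hqb i₃).1
    have e4 : (b + 1) * (b + 1) * (b + 1) ≤ q i₁ * q i₂ * q i₃ :=
      Nat.mul_le_mul (Nat.mul_le_mul e1.le e2.le) e3.le
    have e5 : (b + 1) ^ 3 = (b + 1) * (b + 1) * (b + 1) := by ring
    omega
  -- counting
  have hcount : ∑ i ∈ range j, (x ^ M i).support.card ≤ 2 * n := by
    have h1 : ∀ i ∈ range j, (x ^ M i).support.card ≤
        ∑ ω : Fin n, if q i ∣ minimalPeriod x ω then 1 else 0 := by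
      intro i hi
      rw [← card_filter]
      refine card_le_card fun ω hω => ?_
      rw [mem_filter]
      exact ⟨mem_univ _, (hM i (mem_range.1 hi)).2 ω (Equiv.Perm.mem_support.1 hω)⟩
    refine (sum_le_sum h1).trans ?_
    rw [sum_comm]
    have h2 : ∀ ω ∈ (univ : Finset (Fin n)),
        (∑ i ∈ range j, if q i ∣ minimalPeriod x ω then 1 else 0) ≤ 2 := by
      intro ω _
      rw [← card_filter]
      exact htwo ω
    have h3 := sum_le_card_nsmul _ _ _ h2
    rw [card_univ, Fintype.card_fin, smul_eq_mul] at h3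
    omega
  obtain ⟨i, hi, hi2⟩ : ∃ i < j, j * (x ^ M i).support.card ≤ 2 * n := by
    by_contra hcon
    push Not at hcon
    have h1 : ∑ i ∈ range j, 2 * n < ∑ i ∈ range j, j * (x ^ M i).support.card :=
      sum_lt_sum_of_nonempty ⟨0, mem_range.2 (by omega)⟩ fun i hi => hcon i (mem_range.1 hi)
    rw [sum_const, card_range, smul_eq_mul, ← mul_sum] at h1
    have h2 := Nat.mul_le_mul_left j hcount
    omega
  refine ⟨x ^ M i, H.pow_mem hxH _, (hM i hi).1, ?_, ?_⟩
  · have h1 : (c + 2) * (x ^ M i).support.card ≤ n := by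
      have : 2 * ((c + 2) * (x ^ M i).support.card) ≤ 2 * n := by
        rw [hj] at hi2
        calc 2 * ((c + 2) * (x ^ M i).support.card) = (2 * c + 4) * (x ^ M i).support.card := by
              ring
          _ ≤ 2 * n := hi2
      omega
    have h2 : c * (x ^ M i).support.card ≤ c * k := by
      refine le_trans (Nat.mul_le_mul_right _ (by omega)) (h1.trans hck)
    exact Nat.le_of_mul_le_mul_left h2 hc
  · have h3 : 4 * (x ^ M i).support.card ≤ j * (x ^ M i).support.card :=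
      Nat.mul_le_mul_right _ (by omega)
    omega

end Pool.Agent.XE31.AD
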