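import Mathlib
import Pool.Agent.XE31.AD.MainB
import Pool.Agent.XE31.AD.Mtc1
import Pool.Agent.XE31.AD.Mtc2
import Pool.Agent.XE31.AD.Ext

/-!
Project AD: the main theorems for all large degrees, all pieces.
-/

set_option autoImplicit false

namespace Pool.Agent.XE31.AD

theorem t_mt3 : St_mt3 := mt3_of t_MTC1 t_MTC2

theorem mAall : St_mAall := mAall_of t_mt3 t_EXT

theorem mBall : St_mBall := mBall_of t_mt3 t_EXT

end Pool.Agent.XE31.AD
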