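import Mathlib
import Pool.Agent.N70.PP.VocK
import Pool.Agent.XE31.AD.Voc

/-!
# Vocabulary: kernels in characteristic `p`, all large degrees

`Pool.Agent.XE31.AD.Deg p r n` says that `n ≡ 6 r p` modulo `12 r p` if `p` is odd and `n ≡ 6 r` modulo
`48 r` if `p = 2`.
-/

set_option autoImplicit false

namespace Pool.Agent.XE31.AD

open Pool.Agent.N70.EP.Voc Pool.Agent.N70.PP.Voc

/-- The numbers `n ≥ κ G r` with `n ≡ 6 r p` modulo `12 r p` (`p` odd), resp. `n ≡ 6 r` modulo `48 r`
(`p = 2`), where `r` is odd, `r ≥ ((72 |G| + 2)!) ^ 3`. -/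
def NumbersL (κ : ∀ (G : Type) [Group G], ℕ → ℕ) (p : ℕ) (G : Type) [Group G] : Set ℕ :=
  {n | ∃ r : ℕ, Odd r ∧ ((72 * Nat.card G + 2).factorial) ^ 3 ≤ r ∧ κ G r ≤ n ∧ Deg p r n}

/-- The smallest class of groups which
* contains `G ≀ A_n` for every nontrivial finite perfect group `G` with trivial centre such that
  `Inn G` has a complement in `Aut G` and every `n` in `NumbersL κ p G`,
* contains `G ≀ S_n` for every nontrivial finite group `G` with trivial centre such that `Inn G` has a
  complement in `Aut G` and every `n ≥ ((3 |G| + 2)!) ^ 3`,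
* contains the finite groups with trivial centre all of whose automorphisms are inner which occur
  regularly over `F_p`,
* contains `T ≀ S_n` if it contains the nontrivial group `T` and `n ≥ 2 (|T| + 2)`,
* is closed under finite direct products, direct factors, isomorphisms and characteristic extensions
  (it contains `T` if it contains `C` and `T / C` for a characteristic subgroup `C` of `T`). -/
inductive KernelsL (κ : ∀ (G : Type) [Group G], ℕ → ℕ) (p : ℕ) [Fact p.Prime] :
    ∀ (T : Type) [Group T], Prop
  | alternating (G : Type) [Group G] (hG : Centreless G) (hP : commutator G = ⊤)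
      (hC : ∃ C : Subgroup (MulAut G), IsCompl C (InnerAut G)) (n : ℕ) (hn : n ∈ NumbersL κ p G) :
      KernelsL κ p (AltWreath G n)
  | symmetric (G : Type) [Group G] (hG : Centreless G)
      (hC : ∃ C : Subgroup (MulAut G), IsCompl C (InnerAut G)) (n : ℕ)
      (hn : ((3 * Nat.card G + 2).factorial) ^ 3 ≤ n) : KernelsL κ p (Wreath G n)
  | complete (T : Type) [Group T] [Finite T] (hZ : Subgroup.center T = ⊥)
      (hI : ∀ a : MulAut T, ∃ g : T, a = MulAut.conj g) (hR : OccursRegularly (ZMod p) T) :
      KernelsL κ p T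
  | power (T : Type) [Group T] [Nontrivial T] (h : KernelsL κ p T) (n : ℕ)
      (hn : 2 * (Nat.card T + 2) ≤ n) : KernelsL κ p (Wreath T n)
  | prod (I : Type) [Finite I] (T : I → Type) [∀ i, Group (T i)] (h : ∀ i, KernelsL κ p (T i)) :
      KernelsL κ p (∀ i, T i)
  | factor (S T : Type) [Group S] [Group T] (h : KernelsL κ p (S × T)) : KernelsL κ p S
  | extension (T : Type) [Group T] (C : Subgroup T) [C.Characteristic] (h : KernelsL κ p C)
      (h' : KernelsL κ p (T ⧸ C)) : KernelsL κ p T
  | iso (T T' : Type) [Group T] [Group T'] (e : T ≃* T') (h : KernelsL κ p T) : KernelsL κ p T'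

end Pool.Agent.XE31.AD
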