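import Mathlib
import Pool.Agent.N70.PP.VocB
import Pool.Agent.N70.PP.VocKB
import Pool.Agent.XE31.AD.VocK
import Pool.Agent.XE31.AD.Fin

/-!
Project AD: kernels in characteristic `p`, all characters, all large degrees.
-/

set_option autoImplicit false
set_option linter.unusedSectionVars false
set_option linter.unusedSimpArgs false

namespace Pool.Agent.XE31.AD

open Nfff32c05
open Pool.Agent.N70.PP
open Pool.Agent.H391R2 (Wr isRealizable_of isRealizable_quotient)
open Pool.Agent.H391R2.T4 (RegSol WeakSol HilbField finite_wr)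
open Pool.Agent.Y793 (AWr AltTw twProj regSol_iso)
open Pool.Agent.TH59.WX (finite_of_kernel)
open Pool.Agent.TH444.TW (RS RSK RegularOver regSol_of_regularOver)
open Pool.Agent.TH377.IG (SpecProp FP prFP)
open Pool.Agent.N600.UK (CL cl_of_center cl_iso Out cls cls_eq_one conj_inj)
open Pool.Agent.N600.ZQ (ReducesP RealizedP SameP reducesP_of FratCover)
open Pool.Agent.N70.EP (twTrans ker_symm_comp pB FB exists_sec exists_kerEquiv exists_pull)
open Pool.Agent.N70.EP.Voc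
open Pool.Agent.N70.PP.Voc

/-- The split case, uniformly in the fields. -/
theorem mBuA (p : ℕ) [Fact p.Prime] (H B : Type) [Group H]
    [Finite H] [Group B] [Finite B] (a : B →* H) (s : H →* B) (hs : ∀ h, a (s h) = h)
    (hperf : commutator a.ker = ⊤) (r : ℕ) (hr : Odd r)
    (hr2 : ((72 * Nat.card a.ker + 2).factorial) ^ 3 ≤ r) :
    ∃ n₀ : ℕ, ∀ n ≥ n₀, Deg p r n → ∀ χ : H →* ℤˣ, RSK (ZMod p) (twProj a χ n) := by
  obtain ⟨K₀, L₀, i1, i2, i3, i4, i5, i6, i7, e₀, h⟩ := transferP hyp p H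
  have hk := ker_symm_comp e₀ a
  have ha : Function.Surjective a := fun h => ⟨s h, hs h⟩
  obtain ⟨n₀, hn₀⟩ := mBall p K₀ L₀ B ((e₀.symm : H →* (L₀ ≃ₐ[K₀] L₀)).comp a)
    (e₀.symm.surjective.comp ha) (by rw [hk]; exact hperf)
    (weak_of_split K₀ L₀ B _ (s.comp (e₀ : (L₀ ≃ₐ[K₀] L₀) →* H)) (fun ρ => by
      change e₀.symm (a (s (e₀ ρ))) = ρ
      rw [hs, e₀.symm_apply_apply])) r hr (by rw [hk]; exact hr2)
  exact ⟨n₀, fun n hn hd χ => rsk_twP p a χ _ e₀ h (hn₀ n hn hd _)⟩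

theorem fibP_mainA (p : ℕ) [Fact p.Prime] (B W : Type) [Group B] [Finite B] [Group W]
    [Finite W] (α : B →* W) (hperf : commutator α.ker = ⊤) (r : ℕ) (hr : Odd r)
    (hr2 : ((72 * Nat.card α.ker + 2).factorial) ^ 3 ≤ r) :
    ∃ n₀ : ℕ, ∀ n ≥ n₀, Deg p r n → FibP p α n := by
  have h1 : ∀ D : Subgroup B, ∃ n₀ : ℕ, ∀ n ≥ n₀, Deg p r n → ∀ χ : D →* ℤˣ,
      RSK (ZMod p) (twProj (prFP α (aD α D)) χ n) := by
    intro D
    obtain ⟨e⟩ := kerD α D
    have hfD : Finite D := inferInstance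
    have hfF : Finite (FP α (aD α D)) := inferInstance
    refine mBuA p D (FP α (aD α D)) (prFP α (aD α D))
      { toFun := fun d => ⟨((d : B), d), rfl⟩
        map_one' := rfl
        map_mul' := fun _ _ => rfl } (fun d => rfl) (Y793.perf_congr e hperf) r hr ?_
    rw [← Nat.card_congr e.toEquiv]
    exact hr2
  choose κ hκ using h1
  have hfS : Finite (Subgroup B) := inferInstance
  obtain ⟨k₀, hk₀⟩ : ∃ k₀, ∀ D, κ D ≤ k₀ := by
    obtain ⟨k₀, hk₀⟩ := (Set.finite_range κ).bddAbove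
    exact ⟨k₀, fun D => hk₀ ⟨D, rfl⟩⟩
  exact ⟨k₀, fun n hn hd χ D _ => hκ D n ((hk₀ D).trans hn) hd _⟩

theorem rsk_kerAll (p : ℕ) [Fact p.Prime] (G : Type) [Group G] [Finite G]
    (hZ : ∀ z : G, (∀ g : G, z * g = g * z) → z = 1) (hperf : commutator G = ⊤)
    (r : ℕ) (hr : Odd r) (hr2 : ((72 * Nat.card G + 2).factorial) ^ 3 ≤ r) :
    ∃ n₀ : ℕ, ∀ n ≥ n₀, Deg p r n → ∀ (Γ : Type) [Group Γ] [Finite Γ]
      (a : Γ →* MulAut G) (χ : Γ →* ℤˣ), RSK (ZMod p) (twProj (pB ((cls G).comp a)) χ n) := by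
  have hfin : Finite (MulAut G) := Finite.of_injective (fun a : MulAut G => (a : G → G))
    DFunLike.coe_injective
  have h1 : ∀ W : Subgroup (MulAut G × ℤˣ), ∃ n₀ : ℕ, ∀ n ≥ n₀, Deg p r n →
      RSK (ZMod p) (twProj (pB ((cls G).comp ((MonoidHom.fst (MulAut G) ℤˣ).comp W.subtype)))
        ((MonoidHom.snd (MulAut G) ℤˣ).comp W.subtype) n) := by
    intro W
    obtain ⟨s, hs⟩ := sec_of_lift ((MonoidHom.fst (MulAut G) ℤˣ).comp W.subtype)
    obtain ⟨e⟩ := exists_kerEquiv ((cls G).comp ((MonoidHom.fst (MulAut G) ℤˣ).comp W.subtype)) hZ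
    have hfW : Finite W := inferInstance
    obtain ⟨n₀, hn₀⟩ := mBuA p W _
      (pB ((cls G).comp ((MonoidHom.fst (MulAut G) ℤˣ).comp W.subtype))) s hs
      (Y793.perf_congr e hperf) r hr (by
        rw [← Nat.card_congr e.toEquiv]
        exact hr2)
    exact ⟨n₀, fun n hn hd => hn₀ n hn hd _⟩
  choose κ hκ using h1
  have hfS : Finite (Subgroup (MulAut G × ℤˣ)) := inferInstance
  obtain ⟨k₀, hk₀⟩ : ∃ k₀, ∀ W, κ W ≤ k₀ := by
    obtain ⟨k₀, hk₀⟩ := (Set.finite_range κ).bddAbove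
    exact ⟨k₀, fun W => hk₀ ⟨W, rfl⟩⟩
  refine ⟨k₀, fun n hn hd Γ _ _ a χ => ?_⟩
  let W : Subgroup (MulAut G × ℤˣ) := (a.prod χ).range
  let ρ : Γ →* W := (a.prod χ).rangeRestrict
  have h2 := hκ W n ((hk₀ W).trans hn) hd
  have hW : Finite (Wr (FB ((cls G).comp ((MonoidHom.fst (MulAut G) ℤˣ).comp W.subtype))) n) :=
    finite_wr _ _
  have h3 := Pool.Agent.N75.EP.t_pul (ZMod p) W _ Γ
        (twProj (pB ((cls G).comp ((MonoidHom.fst (MulAut G) ℤˣ).comp W.subtype)))
        ((MonoidHom.snd (MulAut G) ℤˣ).comp W.subtype) n) ρ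
        (MonoidHom.rangeRestrict_surjective _) h2
  obtain ⟨e, he⟩ := exists_pull ((cls G).comp ((MonoidHom.fst (MulAut G) ℤˣ).comp W.subtype)) ρ
    ((MonoidHom.snd (MulAut G) ℤˣ).comp W.subtype) n
  exact RSK.congr h3 e he

theorem exists_kappaA (p : ℕ) [Fact p.Prime] : ∃ κ : (∀ (G : Type) [Group G], ℕ → ℕ),
    ∀ (G : Type) [Group G],
    Centreless G → commutator G = ⊤ → ∀ n ∈ NumbersL κ p G, GoodP p G n := by
  have h1 : ∀ (G : Type) [Group G] (r : ℕ), ∃ k₀ : ℕ, Centreless G → commutator G = ⊤ → Odd r →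
      ((72 * Nat.card G + 2).factorial) ^ 3 ≤ r → ∀ n ≥ k₀, Deg p r n →
      ∀ (Γ : Type) [Group Γ] [Finite Γ] (a : Γ →* MulAut G) (χ : Γ →* ℤˣ),
        RSK (ZMod p) (twProj (N70.EP.pB ((Pool.Agent.N600.UK.cls G).comp a)) χ n) := by
    intro G _ r
    by_cases h : Centreless G ∧ commutator G = ⊤ ∧ Odd r ∧
        ((72 * Nat.card G + 2).factorial) ^ 3 ≤ r
    · obtain ⟨hG, hP, hr, hr'⟩ := h
      have h2 := hG.finite
      obtain ⟨k₀, hk₀⟩ := rsk_kerAll p G (cl_of_center hG.center) hP r hr hr'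
      exact ⟨k₀, fun _ _ _ _ => hk₀⟩
    · exact ⟨0, fun a b c d => absurd ⟨a, b, c, d⟩ h⟩
  choose κ hκ using h1
  refine ⟨fun G _ r => κ G r + 2 * (Nat.card G + 4), fun G _ hG hP n hn => ?_⟩
  obtain ⟨r, hr, hr', hn, hd⟩ := hn
  have hn' : κ G r + 2 * (Nat.card G + 4) ≤ n := hn
  exact ⟨by omega, hκ G r hG hP hr hr' n (by omega) hd⟩

/-- The groups of the class. -/
theorem kernels_mainA (p : ℕ) [Fact p.Prime] (κ : ∀ (G : Type) [Group G], ℕ → ℕ)
    (hκ : ∀ (G : Type) [Group G], Centreless G → commutator G = ⊤ →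
      ∀ n ∈ NumbersL κ p G, GoodP p G n) (T : Type) [Group T]
    (hT : KernelsL κ p T) : Finite T ∧ CL T ∧ GoodKerP p T := by
  have gd : St_gdp p := N555.PP.t_gdp p
  induction hT with
  | alternating G hG hP hC n hn =>
    have h2 := hG.finite
    have h3 := hG.nontrivial
    have h4 : Finite (Wr G n) := finite_wr G n
    refine ⟨Finite.of_injective Subtype.val Subtype.val_injective, ?_, ?_⟩
    · have hn1 := (hκ G hG hP n hn).1
      intro z hz
      exact N478.EP.triv_of_comm (cl_of_center hG.center) z (fun k g => hz (N891.EP.sg k g))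
    · intro K L X _ _ _ _ _ _ _ _ α hα hι
      have hf4 : Finite (AltWreath G n) := Finite.of_injective Subtype.val Subtype.val_injective
      have hfX : Finite X := finite_of_kernel α hι.some.symm
      have h5 := GoodP.compl (cl_of_center hG.center) hC (hκ G hG hP n hn) α hα hι
      exact reg_all h5 K L (MulEquiv.refl _)
  | symmetric G hG hC n hn =>
    have h2 := hG.finite
    have h3 := hG.nontrivial
    obtain ⟨h4, h5, h6⟩ := (N600.UK.Univ.wreath G hG.center hC n hn).main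
    refine ⟨h4, h5, ?_⟩
    intro K L X _ _ _ _ _ _ _ _ α hα hι
    exact h6 K L X α hα hι
  | complete T hZ hI hR =>
    exact ⟨inferInstance, cl_of_center hZ, good_completeP (cl_of_center hZ) hI hR⟩
  | power T h n hn ih =>
    obtain ⟨h1, h2, h3⟩ := ih
    exact ⟨finite_wr T n, fun x hx => N600.UK.center_wr h2 x hx, gd.wr T h2 h3 n hn⟩
  | prod I T h ih =>
    have h1 : ∀ i, Finite (T i) := fun i => (ih i).1
    refine ⟨inferInstance, ?_, gd.pi I T (fun i => (ih i).2.1) (fun i => (ih i).2.2)⟩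
    intro z hz
    classical
    funext i
    refine (ih i).2.1 _ fun g => ?_
    have h2 := congrFun (hz (Pi.mulSingle i g)) i
    rw [Pi.mul_apply, Pi.mul_apply, Pi.mulSingle_eq_same] at h2
    exact h2
  | factor A B h ih =>
    obtain ⟨h1, h2, h3⟩ := ih
    refine ⟨Finite.of_injective (fun a : A => (a, (1 : B))) (fun a b hab => congrArg Prod.fst hab),
      ?_, gd.factor A B h3⟩
    intro z hz
    have h4 : ((z, 1) : A × B) = 1 := by
      apply h2
      rintro ⟨a, b⟩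
      refine Prod.ext (hz a) ?_
      change 1 * b = b * 1
      rw [one_mul, mul_one]
    exact congrArg Prod.fst h4
  | extension T C h h' ih ih' =>
    obtain ⟨h1, h2, h3⟩ := ih
    obtain ⟨h4, h5, h6⟩ := ih'
    have hfin : Finite T := Finite.of_subgroup_quotient C
    refine ⟨hfin, ?_, gd.char T C h3 h6⟩
    intro z hz
    have h7 : (QuotientGroup.mk' C z) = 1 := by
      apply h5
      intro g
      obtain ⟨g, rfl⟩ := QuotientGroup.mk'_surjective C g
      rw [← map_mul, hz g, map_mul]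
    rw [QuotientGroup.mk'_apply, QuotientGroup.eq_one_iff] at h7
    have h8 : (⟨z, h7⟩ : C) = 1 := by
      apply h2
      intro g
      exact Subtype.ext (hz g)
    exact congrArg Subtype.val h8
  | iso T T' e h ih =>
    obtain ⟨h1, h2, h3⟩ := ih
    exact ⟨Finite.of_equiv _ e.toEquiv, cl_iso e h2, gd.iso T T' e h3⟩


end Pool.Agent.XE31.AD
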